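import Pool.Agent.Helper4.PQ0.E1
import Pool.Agent.Helper4.PQ0.M_MZZ
import Pool.Agent.Helper4.PQ0.M_HEC
import Pool.Agent.Helper4.PQ0.M_STL
import Pool.Agent.Helper4.PQ0.M_TSU
import Pool.Agent.Helper4.PQ0.M_DRE
import Pool.Agent.Helper4.PQ0.M_ORB
import Pool.Agent.Helper4.PQ0.M_TS2

/-!
# MP_2b6189_al, any parity: the statements of project OC (structure of the principal block) for the data `PD` of `PQ0`
-/

set_option autoImplicit false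

namespace Pool.Agent.Helper4.PQ1

open Matrix ComplexConjugate Pool.Agent.Helper94.YG Pool.Agent.Helper4.PQ0
open Pool.Agent.Helper94.YF hiding StORB
open Pool.Agent.Helper89.OS hiding PD Cx Blk B0 Orb StXA StXB StXC StXE StCGR StISO StBLK StAMG StHEC StSTL StMZZ StDRE StTSU
open Pool.Agent.Helper89.OC hiding Ks gX OB Lk StORB StTS2 StLKD StTAN StE2 StE4 StE3 StIB StRB StMXX StGPZ StGPP StKSS StLKN StGA2 GA Gam Kp

/-- Galois action -/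
structure GA {I : Type} [Fintype I] [DecidableEq I] {p : ℕ} (X : PD I p 1) : Prop where
  gal2 : ∀ (σ : ℂ ≃+* ℂ) (w : (ZMod (p ^ 1))ˣ),
    (∀ ζ : ℂ, ζ ^ p = 1 → σ ζ = ζ ^ (w : ZMod (p ^ 1)).val) →
    ∀ i j, σ (X.s i j) = X.s i (X.pi w j)
  exs : ∀ w : (ZMod (p ^ 1))ˣ, ∃ σ : ℂ ≃+* ℂ, ∀ ζ : ℂ, ζ ^ p = 1 →
    σ ζ = ζ ^ (w : ZMod (p ^ 1)).val
  pi_st : ∀ c i, X.pi c (X.st i) = X.st (X.pi c i)

open Classical in
/-- `Ks` without the orbit of `a` -/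
noncomputable def Kp {I : Type} [Fintype I] [DecidableEq I] {p : ℕ} (X : PD I p 1) (a : I) :
    Finset I := (Ks X).filter fun k => k ∉ Orb X a

/-- The main case: `a` is an exceptional object, `N = (p - 1) / g`. -/
structure Gam {I : Type} [Fintype I] [DecidableEq I] {p : ℕ} (X : PD I p 1) (Q : ℂ → Prop)
    (N : ℕ) (a : I) : Prop where
  blk : Blk X Q
  pN : (p : ℤ) - 1 = N * gX X
  aK : a ∈ Ks X
  ay : X.y a ^ 2 = 1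
  aO : ((Orb X a).card : ℤ) = gX X
  sq : ∑ k ∈ Kp X a, X.y k ^ 2 = gX X * (p - gX X)
  dm : ∑ k ∈ Kp X a, X.y k * (X.d k : ℤ) = gX X

/-- module `LKN` (compare `Pool.Agent.Helper89.OC.StLKN`) -/
def StLKN : Prop := ∀ (I : Type) [Fintype I] [DecidableEq I] (Z : CentreData I) (p : ℕ)
  (b : ZMod Z.L) (X : PD I p 1), Lk Z b X →
  (∀ i k, X.s i k * (X.t i * X.t k) = ∑ l, (X.N i (X.st k) l : ℂ) * (X.t l * X.y l)) ∧
  (∀ i k, X.s (X.st i) (X.st k) = X.s i k) ∧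
  (∃ zz : I → I → ℂ, (∀ i k, IsIntegral ℤ (zz i k)) ∧ (∀ i, zz i X.o = X.z i) ∧
    (∀ k, zz X.o k = X.z k) ∧ ∀ i k, Sf Z i k = ∑ j, zz i j * X.s j k)

/-- module `GA2` (compare `Pool.Agent.Helper89.OC.StGA2`) -/
def StGA2 : Prop := ∀ (I : Type) [Fintype I] [DecidableEq I] (p : ℕ) [NeZero p] (X : PD I p 1),
  (∀ i k, X.s (X.st i) (X.st k) = X.s i k) → GA X

open Classical in
/-- module `E2` (compare `Pool.Agent.Helper89.OC.StE2`) -/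
def StE2 : Prop := ∀ (I : Type) [Fintype I] [DecidableEq I] (p : ℕ) [NeZero p] (X : PD I p 1)
  (u : I → ℂ), (∀ i, u i ≠ 0 → X.t i = 1) → ∀ ζ : ℂ, ζ ^ p = 1 →
  ((∑ j, (if X.t j = ζ then ‖∑ k, X.s j k * u k‖ ^ 2 else 0) : ℝ) : ℂ) =
    (p : ℂ) * ((∑ k, ‖u k‖ ^ 2 : ℝ) : ℂ) + ∑ c : (ZMod (p ^ 1))ˣ,
      ζ ^ (((c⁻¹ : (ZMod (p ^ 1))ˣ) : ZMod (p ^ 1))).val *
        ∑ i, ∑ k, conj (u i) * (X.s i (X.pi c k) * u k)

open Classical in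
/-- module `E4` (compare `Pool.Agent.Helper89.OC.StE4`) -/
def StE4 : Prop := StE2 → StORB → ∀ (I : Type) [Fintype I] [DecidableEq I] (p : ℕ) [NeZero p]
  (X : PD I p 1) (u : I → ℂ), (∀ i, u i ≠ 0 → X.t i = 1) → (∀ k, ∑ c, u (X.pi c k) = 0) →
  (∑ j, if X.t j = 1 then ‖∑ k, X.s j k * u k‖ ^ 2 else 0) = (p : ℝ) * ∑ k, ‖u k‖ ^ 2

open Classical in
/-- module `E3` (compare `Pool.Agent.Helper89.OC.StE3`) -/
def StE3 : Prop := StE2 → StE4 → StORB → ∀ (I : Type) [Fintype I] [DecidableEq I] (p : ℕ)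
  [NeZero p] (X : PD I p 1) (u : I → ℂ), (∀ i, u i ≠ 0 → X.t i = 1) → ∀ ζ : ℂ, ζ ^ p = 1 →
  ζ ≠ 1 → (∑ j, if X.t j = ζ then ‖∑ k, X.s j k * u k‖ ^ 2 else 0) ≤
    2 * (p : ℝ) * ∑ k, ‖u k‖ ^ 2

open Classical in
/-- module `IB` (compare `Pool.Agent.Helper89.OC.StIB`) -/
def StIB : Prop := StE3 → StE2 → StE4 → StORB → ∀ (I : Type) [Fintype I] [DecidableEq I] (p : ℕ)
  [NeZero p] (X : PD I p 1) (b : I), ¬ (p : ℤ) ∣ X.y X.o → X.t b ≠ 1 →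
  (∑ k, if X.t k = 1 then ‖X.s b k‖ ^ 2 else 0) ≤
    2 * (p : ℝ) - ((p : ℝ) - 1) * (X.y b : ℝ) ^ 2 / (gX X : ℝ)

open Classical in
/-- module `RB` (compare `Pool.Agent.Helper89.OC.StRB`) -/
def StRB : Prop := StIB → StTS2 → StORB → StE3 → StE2 → StE4 → ∀ (I : Type) [Fintype I]
  [DecidableEq I] (p : ℕ) [NeZero p] (X : PD I p 1) (Q : ℂ → Prop), Blk X Q →
  ∑ k ∈ Ks X, (1 - 1 / ((Orb X k).card : ℝ)) ≤ 2 * (gX X : ℝ) - 2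

/-- module `MXX` (compare `Pool.Agent.Helper89.OC.StMXX`) -/
def StMXX : Prop := ∀ (I : Type) [Fintype I] [DecidableEq I] (p : ℕ) [NeZero p] (X : PD I p 1),
  GA X → (∀ i k, X.s i k * (X.t i * X.t k) =
    ∑ l, (X.N i (X.st k) l : ℂ) * (X.t l * X.y l)) →
  ∀ k l, X.t k = 1 → X.t l = 1 → ∃ m : (ZMod (p ^ 1))ˣ → ℤ,
    (∀ c, X.s k (X.pi c l) = Fm p m c) ∧
    ∀ c, (X.pi c k = k ∨ X.pi c l = l) → ∀ x, m (c * x) = m x

/-- module `GPZ` (compare `Pool.Agent.Helper89.OC.StGPZ`) -/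
def StGPZ : Prop := StE4 → StE2 → StORB → ∀ (I : Type) [Fintype I] [DecidableEq I] (p : ℕ)
  [NeZero p] (X : PD I p 1) (Q : ℂ → Prop), Blk X Q → ∀ a ∈ Ks X,
  ∑ l ∈ Ks X, (((p : ℝ) - 1) * ∑ c, ‖X.s a (X.pi c l)‖ ^ 2 - ‖∑ c, X.s a (X.pi c l)‖ ^ 2) =
    (p : ℝ) * ((p : ℝ) - 1) ^ 2 * (1 - 1 / ((Orb X a).card : ℝ))

/-- module `GPP` (compare `Pool.Agent.Helper89.OC.StGPP`) -/
def StGPP : Prop := StGPZ → StMXX → StPRV → StCMM → StTS2 → StORB → StE4 → StE2 →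
  ∀ (I : Type) [Fintype I] [DecidableEq I] (p : ℕ) [NeZero p] (X : PD I p 1) (Q : ℂ → Prop)
  (N : ℕ) (a : I), Gam X Q N a → 2 ≤ gX X → GA X → (∀ i k, X.s i k * (X.t i * X.t k) =
    ∑ l, (X.N i (X.st k) l : ℂ) * (X.t l * X.y l)) →
  ∃ w ∈ Kp X a, ((Orb X w).card : ℤ) = gX X

/-- module `KSS` (compare `Pool.Agent.Helper89.OC.StKSS`) -/
def StKSS : Prop := StRB → StIB → StTS2 → StORB → StE3 → StE2 → StE4 → ∀ (I : Type) [Fintype I]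
  [DecidableEq I] (p : ℕ) [NeZero p] (X : PD I p 1) (Q : ℂ → Prop) (N : ℕ) (a : I),
  Gam X Q N a → ∀ w ∈ Kp X a, ((Orb X w).card : ℤ) = gX X →
  ∀ k ∈ Kp X a, k ∉ Orb X w → (Orb X k).card = 1

end Pool.Agent.Helper4.PQ1
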