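import Pool.Agent.Helper4.PQ1.Defs

/-!
# OC MODULE E2 (MP_2b6189_al): the projection identity
-/

set_option autoImplicit false

namespace Pool.Agent.Helper4.PQ1.E2

open Pool.Agent.Helper4.PQ0 Pool.Agent.Helper4.PQ1
open Pool.Agent.Helper94.YF hiding StORB
open Pool.Agent.Helper89.OS hiding PD Cx Blk B0 Orb StXA StXB StXC StXE StCGR StISO StBLK StAMG StHEC StSTL StMZZ StDRE StTSU
open Pool.Agent.Helper89.OC hiding Ks gX OB Lk StORB StTS2 StLKD StTAN StE2 StE4 StE3 StIB StRB StMXX StGPZ StGPP StKSS StLKN StGA2 GA Gam Kp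

open Matrix ComplexConjugate Pool.Agent.Helper94.YG

/-- powers of the inverse root of unity -/
theorem inv_pow_neg_val {p : ℕ} [NeZero (p ^ 1)] (ζ : ℂ) (h : ζ ^ (p ^ 1) = 1)
    (a : ZMod (p ^ 1)) : (ζ⁻¹) ^ (-a).val = ζ ^ a.val := by
  have h1 : ζ ^ ((-a).val + a.val) = 1 := by
    have h2 : p ^ 1 ∣ (-a).val + a.val := by
      rw [← ZMod.natCast_eq_zero_iff]
      push_cast
      rw [ZMod.natCast_zmod_val, ZMod.natCast_zmod_val, neg_add_cancel]
    obtain ⟨m, hm⟩ := h2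
    rw [hm, pow_mul, h, one_pow]
  rw [inv_pow]
  rw [pow_add] at h1
  rw [eq_inv_of_mul_eq_one_left h1, inv_inv]

open Classical in
theorem hE2 : StE2 := by
  intro I _ _ p _ X u hu ζ hζ
  have hp := X.prime
  have : NeZero (p ^ 1) := ⟨by simpa using hp.ne_zero⟩
  have hp0 : (p : ℂ) ≠ 0 := by exact_mod_cast hp.ne_zero
  have hζ1 : ζ ^ (p ^ 1) = 1 := by rw [pow_one]; exact hζ
  have hζ0 : ζ ≠ 0 := by
    intro h0
    rw [h0, zero_pow hp.ne_zero] at hζ
    exact zero_ne_one hζ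
  set F : I → ℂ := fun j => ∑ k, X.s j k * u k with hF
  set G : ZMod (p ^ 1) → ℂ := fun w => ∑ j, X.t j ^ w.val * (conj (F j) * F j) with hG
  -- the expansion of `G`
  have hGe : ∀ w, G w = ∑ i, ∑ k, conj (u i) * u k *
      ∑ j, X.t j ^ w.val * (X.s (X.pi (-1) i) j * X.s j k) := by
    intro w
    have e1 : ∀ j, X.t j ^ w.val * (conj (F j) * F j) = ∑ i, ∑ k, conj (u i) * u k *
        (X.t j ^ w.val * (X.s (X.pi (-1) i) j * X.s j k)) := by
      intro j
      have e2 : conj (F j) = ∑ i, X.s (X.pi (-1) i) j * conj (u i) := by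
        rw [hF]
        simp only [map_sum, map_mul]
        refine Finset.sum_congr rfl fun i _ => ?_
        rw [X.conj_s, X.s_symm]
      rw [e2, hF, Finset.sum_mul_sum, Finset.mul_sum]
      refine Finset.sum_congr rfl fun i _ => ?_
      rw [Finset.mul_sum]
      refine Finset.sum_congr rfl fun k _ => ?_
      ring
    show ∑ j, X.t j ^ w.val * (conj (F j) * F j) = _
    rw [Finset.sum_congr rfl fun j _ => e1 j, Finset.sum_comm]
    refine Finset.sum_congr rfl fun i _ => ?_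
    rw [Finset.sum_comm]
    refine Finset.sum_congr rfl fun k _ => ?_
    rw [Finset.mul_sum]
  -- `w = 0`
  have hG0 : G 0 = (p : ℂ) ^ 2 * ((∑ k, ‖u k‖ ^ 2 : ℝ) : ℂ) := by
    rw [hGe]
    have e1 : ∀ i k, ∑ j, X.t j ^ (0 : ZMod (p ^ 1)).val * (X.s (X.pi (-1) i) j * X.s j k) =
        if i = k then (p : ℂ) ^ 2 else 0 := by
      intro i k
      have e2 : ∑ j, X.t j ^ (0 : ZMod (p ^ 1)).val * (X.s (X.pi (-1) i) j * X.s j k) =
          ∑ j, X.s (X.pi (-1) i) j * X.s j k := by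
        refine Finset.sum_congr rfl fun j _ => ?_
        rw [ZMod.val_zero, pow_zero, one_mul]
      rw [e2, X.weil0]
      by_cases hik : i = k
      · rw [if_pos hik, if_pos (by rw [hik])]
      · rw [if_neg hik, if_neg]
        intro h
        apply hik
        have h3 := congrArg (X.pi (-1)) h
        rw [← X.pi_mul, ← X.pi_mul, neg_mul_neg, one_mul, X.pi_one, X.pi_one] at h3
        exact h3
    rw [Finset.sum_congr rfl fun i _ => Finset.sum_congr rfl fun k _ => by rw [e1 i k]]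
    push_cast
    rw [Finset.mul_sum]
    refine Finset.sum_congr rfl fun i _ => ?_
    simp only [mul_ite, mul_zero, Finset.sum_ite_eq, Finset.mem_univ, if_true]
    rw [← Complex.conj_mul']
    ring
  -- `w` a unit
  have hGu : ∀ w : (ZMod (p ^ 1))ˣ, G (w : ZMod (p ^ 1)) = (p : ℂ) *
      ∑ i, ∑ k, conj (u i) * (X.s i (X.pi (-w⁻¹) k) * u k) := by
    intro w
    rw [hGe, Finset.mul_sum]
    refine Finset.sum_congr rfl fun i _ => ?_
    rw [Finset.mul_sum]
    refine Finset.sum_congr rfl fun k _ => ?_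
    by_cases hi : u i = 0
    · rw [hi]; simp
    by_cases hk : u k = 0
    · rw [hk]; simp
    have ti := hu i hi
    have tk := hu k hk
    have ti' : X.t (X.pi (-1) i) = 1 := by rw [X.pi_t, ti, one_pow]
    have e3 : X.s (X.pi (-1) i) (X.pi w⁻¹ k) = X.s i (X.pi (-w⁻¹) k) := by
      rw [X.pi_s, ← X.pi_mul, neg_one_mul]
    rw [X.weil, ti', tk, one_pow, e3]
    ring
  -- the sum over all residues
  have hleft : ∑ w : ZMod (p ^ 1), (ζ⁻¹) ^ w.val * G w =
      (p : ℂ) * ((∑ j, (if X.t j = ζ then ‖∑ k, X.s j k * u k‖ ^ 2 else 0) : ℝ) : ℂ) := by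
    have e1 : ∀ w : ZMod (p ^ 1), (ζ⁻¹) ^ w.val * G w =
        ∑ j, (ζ⁻¹ * X.t j) ^ w.val * (conj (F j) * F j) := by
      intro w
      show (ζ⁻¹) ^ w.val * ∑ j, X.t j ^ w.val * (conj (F j) * F j) = _
      rw [Finset.mul_sum]
      refine Finset.sum_congr rfl fun j _ => ?_
      rw [mul_pow]; ring
    rw [Finset.sum_congr rfl fun w _ => e1 w, Finset.sum_comm]
    push_cast
    rw [Finset.mul_sum]
    refine Finset.sum_congr rfl fun j _ => ?_
    rw [← Finset.sum_mul]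
    have hθ : (ζ⁻¹ * X.t j) ^ (p ^ 1) = 1 := by
      rw [mul_pow, inv_pow, hζ1, X.t_pow, inv_one, one_mul]
    rw [Helper82.OS.sum_pow_val hp _ hθ]
    have hiff : ζ⁻¹ * X.t j = 1 ↔ X.t j = ζ := by
      constructor
      · intro h
        have := congrArg (fun z => ζ * z) h
        simpa [← mul_assoc, mul_inv_cancel₀ hζ0] using this
      · intro h
        rw [h, inv_mul_cancel₀ hζ0]
    by_cases ht : X.t j = ζ
    · rw [if_pos (hiff.2 ht), if_pos ht, Complex.conj_mul']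
      push_cast
      rfl
    · rw [if_neg (fun h => ht (hiff.1 h)), if_neg ht]
      simp
  have hright : ∑ w : ZMod (p ^ 1), (ζ⁻¹) ^ w.val * G w =
      (p : ℂ) ^ 2 * ((∑ k, ‖u k‖ ^ 2 : ℝ) : ℂ) + (p : ℂ) * ∑ c : (ZMod (p ^ 1))ˣ,
      ζ ^ (((c⁻¹ : (ZMod (p ^ 1))ˣ) : ZMod (p ^ 1))).val *
        ∑ i, ∑ k, conj (u i) * (X.s i (X.pi c k) * u k) := by
    rw [Helper82.OS.sum_residues hp]
    congr 1
    · rw [ZMod.val_zero, pow_zero, one_mul, hG0]
    · rw [Finset.mul_sum]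
      refine Finset.sum_nbij' (fun w => -w⁻¹) (fun c => -c⁻¹) ?_ ?_ ?_ ?_ ?_
      · intro w _; exact Finset.mem_univ _
      · intro w _; exact Finset.mem_univ _
      · intro w _
        show -(-w⁻¹)⁻¹ = w
        rw [inv_neg, neg_neg, inv_inv]
      · intro c _
        show -(-c⁻¹)⁻¹ = c
        rw [inv_neg, neg_neg, inv_inv]
      · intro w _
        have e4 : (((-w⁻¹)⁻¹ : (ZMod (p ^ 1))ˣ) : ZMod (p ^ 1)) = -(w : ZMod (p ^ 1)) := by
          rw [inv_neg, inv_inv, Units.val_neg]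
        rw [hGu, e4, ← inv_pow_neg_val ζ hζ1, neg_neg]
        ring
  have h3 := hleft.symm.trans hright
  have h4 : (p : ℂ) * ((∑ j, (if X.t j = ζ then ‖∑ k, X.s j k * u k‖ ^ 2 else 0) : ℝ) : ℂ) =
      (p : ℂ) * ((p : ℂ) * ((∑ k, ‖u k‖ ^ 2 : ℝ) : ℂ) + ∑ c : (ZMod (p ^ 1))ˣ,
      ζ ^ (((c⁻¹ : (ZMod (p ^ 1))ˣ) : ZMod (p ^ 1))).val *
        ∑ i, ∑ k, conj (u i) * (X.s i (X.pi c k) * u k)) := by
    rw [h3]; ring
  exact mul_left_cancel₀ hp0 h4

end Pool.Agent.Helper4.PQ1.E2
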