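import Pool.Agent.Helper4.PQ1.Defs

/-!
# OC MODULE E3 (MP_2b6189_al)
-/

set_option autoImplicit false

namespace Pool.Agent.Helper4.PQ1.E3

open Pool.Agent.Helper4.PQ0 Pool.Agent.Helper4.PQ1
open Pool.Agent.Helper94.YF hiding StORB
open Pool.Agent.Helper89.OS hiding PD Cx Blk B0 Orb StXA StXB StXC StXE StCGR StISO StBLK StAMG StHEC StSTL StMZZ StDRE StTSU
open Pool.Agent.Helper89.OC hiding Ks gX OB Lk StORB StTS2 StLKD StTAN StE2 StE4 StE3 StIB StRB StMXX StGPZ StGPP StKSS StLKN StGA2 GA Gam Kp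

open Matrix ComplexConjugate Pool.Agent.Helper94.YG

section
variable {I : Type} [Fintype I] [DecidableEq I] {p : ℕ} [NeZero p] (X : PD I p 1)

theorem pi_bij (c : (ZMod (p ^ 1))ˣ) : Function.Bijective (X.pi c) := by
  constructor
  · intro a b h
    have := congrArg (X.pi c⁻¹) h
    simpa [← X.pi_mul, X.pi_one] using this
  · intro b
    exact ⟨X.pi c⁻¹ b, by rw [← X.pi_mul, mul_inv_cancel, X.pi_one]⟩

theorem sum_pi {M : Type} [AddCommMonoid M] (c : (ZMod (p ^ 1))ˣ) (f : I → M) :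
    ∑ k, f (X.pi c k) = ∑ k, f k :=
  (pi_bij X c).sum_comp f

theorem sum_mul_right' {M : Type} [AddCommMonoid M] (e : (ZMod (p ^ 1))ˣ)
    (f : (ZMod (p ^ 1))ˣ → M) : ∑ c, f (c * e) = ∑ c, f c :=
  Fintype.sum_equiv (Equiv.mulRight e) _ _ (fun _ => rfl)

/-- the bilinear form vanishes on an invariant vector and a vector of orbit sums zero -/
theorem bil_zero (hp : (p : ℂ) - 1 ≠ 0) (hcard : ((Fintype.card (ZMod (p ^ 1))ˣ : ℕ) : ℂ) = (p : ℂ) - 1)
    (v y : I → ℂ) (hv : ∀ c k, v (X.pi c k) = v k) (hy : ∀ k, ∑ c, y (X.pi c k) = 0) :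
    ∑ i, ∑ k, v i * (X.s i k * y k) = 0 := by
  have h1 : ∀ c : (ZMod (p ^ 1))ˣ,
      ∑ i, ∑ k, v i * (X.s i k * y k) = ∑ i, ∑ k, v i * (X.s i k * y (X.pi c k)) := by
    intro c
    calc ∑ i, ∑ k, v i * (X.s i k * y k)
        = ∑ i, ∑ k, v i * (X.s i (X.pi c k) * y (X.pi c k)) := by
          refine Finset.sum_congr rfl fun i _ => ?_
          exact (sum_pi X c (fun k => v i * (X.s i k * y k))).symm
      _ = ∑ i, ∑ k, v (X.pi c i) * (X.s (X.pi c i) k * y (X.pi c k)) := by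
          refine Finset.sum_congr rfl fun i _ => Finset.sum_congr rfl fun k _ => ?_
          rw [hv, X.pi_s]
      _ = ∑ i, ∑ k, v i * (X.s i k * y (X.pi c k)) :=
          sum_pi X c (fun i => ∑ k, v i * (X.s i k * y (X.pi c k)))
  have h2 : ((Fintype.card (ZMod (p ^ 1))ˣ : ℕ) : ℂ) * ∑ i, ∑ k, v i * (X.s i k * y k) = 0 := by
    calc ((Fintype.card (ZMod (p ^ 1))ˣ : ℕ) : ℂ) * ∑ i, ∑ k, v i * (X.s i k * y k)
        = ∑ _c : (ZMod (p ^ 1))ˣ, ∑ i, ∑ k, v i * (X.s i k * y k) := by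
          rw [Finset.sum_const, nsmul_eq_mul, Finset.card_univ]
      _ = ∑ c : (ZMod (p ^ 1))ˣ, ∑ i, ∑ k, v i * (X.s i k * y (X.pi c k)) :=
          Finset.sum_congr rfl fun c _ => h1 c
      _ = ∑ i, ∑ k, v i * (X.s i k * ∑ c, y (X.pi c k)) := by
          rw [Finset.sum_comm]
          refine Finset.sum_congr rfl fun i _ => ?_
          rw [Finset.sum_comm]
          refine Finset.sum_congr rfl fun k _ => ?_
          rw [Finset.mul_sum, Finset.mul_sum]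
      _ = 0 := by simp [hy]
  rw [hcard] at h2
  exact (mul_eq_zero.1 h2).resolve_left hp

/-- `|s v|^2 = p^2 |v|^2` -/
theorem norm_s (v : I → ℂ) :
    ∑ i, ‖∑ k, X.s i k * v k‖ ^ 2 = (p : ℝ) ^ 2 * ∑ k, ‖v k‖ ^ 2 := by
  have h : ((∑ i, ‖∑ k, X.s i k * v k‖ ^ 2 : ℝ) : ℂ) =
      (((p : ℝ) ^ 2 * ∑ k, ‖v k‖ ^ 2 : ℝ) : ℂ) := by
    push_cast
    calc ∑ i, ((‖∑ k, X.s i k * v k‖ : ℝ) : ℂ) ^ 2
        = ∑ i, ∑ k, ∑ l, (v k * conj (v l)) * (X.s k i * conj (X.s l i)) := by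
          refine Finset.sum_congr rfl fun i _ => ?_
          rw [← Complex.mul_conj', map_sum, Finset.sum_mul_sum]
          refine Finset.sum_congr rfl fun k _ => Finset.sum_congr rfl fun l _ => ?_
          rw [map_mul, X.s_symm k i, X.s_symm l i]
          ring
      _ = ∑ k, ∑ l, (v k * conj (v l)) * ∑ i, (X.s k i * conj (X.s l i)) := by
          rw [Finset.sum_comm]
          refine Finset.sum_congr rfl fun k _ => ?_
          rw [Finset.sum_comm]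
          refine Finset.sum_congr rfl fun l _ => ?_
          rw [Finset.mul_sum]
      _ = (p : ℂ) ^ 2 * ∑ k, ((‖v k‖ : ℝ) : ℂ) ^ 2 := by
          rw [Finset.mul_sum]
          refine Finset.sum_congr rfl fun k _ => ?_
          simp only [X.s_uni]
          rw [Finset.sum_eq_single k]
          · rw [if_pos rfl, Complex.mul_conj']
            ring
          · intro l _ hl
            rw [if_neg (Ne.symm hl), mul_zero]
          · intro h
            exact absurd (Finset.mem_univ k) h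
  exact_mod_cast h

end

/-- Cauchy-Schwarz -/
theorem cs {I : Type} [Fintype I] (P : I → Prop) [DecidablePred P] (x y : I → ℂ)
    (hx : ∀ i, x i ≠ 0 → P i) (K N : ℝ) (hK : 0 ≤ K) (hN : ∑ i, ‖x i‖ ^ 2 = N)
    (hy : ∑ i, (if P i then ‖y i‖ ^ 2 else 0) ≤ K ^ 2 * N) :
    ‖∑ i, conj (x i) * y i‖ ≤ K * N := by
  have hN0 : 0 ≤ N := by rw [← hN]; positivity
  have h1 : ‖∑ i, conj (x i) * y i‖ ≤ ∑ i, ‖x i‖ * (if P i then ‖y i‖ else 0) := by
    refine (norm_sum_le _ _).trans (Finset.sum_le_sum fun i _ => ?_)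
    rw [norm_mul, RCLike.norm_conj]
    split_ifs with h
    · exact le_rfl
    · have : x i = 0 := by
        by_contra h'
        exact h (hx i h')
      simp [this]
  have h2 : (∑ i, ‖x i‖ * (if P i then ‖y i‖ else 0)) ^ 2 ≤ (K * N) ^ 2 := by
    refine (Finset.sum_mul_sq_le_sq_mul_sq _ _ _).trans ?_
    have h3 : ∑ i, (if P i then ‖y i‖ else 0) ^ 2 = ∑ i, (if P i then ‖y i‖ ^ 2 else 0) := by
      refine Finset.sum_congr rfl fun i _ => ?_
      split_ifs <;> simp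
    rw [h3, hN]
    calc N * ∑ i, (if P i then ‖y i‖ ^ 2 else 0) ≤ N * (K ^ 2 * N) :=
          mul_le_mul_of_nonneg_left hy hN0
      _ = (K * N) ^ 2 := by ring
  exact h1.trans (abs_le_of_sq_le_sq' h2 (by positivity)).2

/-- the sum over the units of the powers of a `p`-th root of unity -/
theorem sum_units {p : ℕ} [NeZero p] (hp : p.Prime) (θ : ℂ) (h : θ ^ p = 1) :
    ∑ e : (ZMod (p ^ 1))ˣ, θ ^ ((e : ZMod (p ^ 1))).val = (if θ = 1 then (p : ℂ) else 0) - 1 := by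
  have h' : θ ^ (p ^ 1) = 1 := by rw [pow_one]; exact h
  have h1 := Pool.Agent.Helper82.OS.sum_residues hp (fun w => θ ^ w.val)
  rw [Pool.Agent.Helper82.OS.sum_pow_val hp θ h'] at h1
  rw [h1]
  simp

theorem pow_val_mul {p : ℕ} [NeZero p] (ζ : ℂ) (h : ζ ^ p = 1) (x y : ZMod (p ^ 1)) :
    ζ ^ (x * y).val = (ζ ^ x.val) ^ y.val := by
  have h' : ζ ^ (p ^ 1) = 1 := by rw [pow_one]; exact h
  rw [ZMod.val_mul, ← pow_mul, pow_eq_pow_mod (x.val * y.val) h']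

section
variable {I : Type} [Fintype I] [DecidableEq I] {p : ℕ} [NeZero p] (X : PD I p 1)

/-- `|Θ u|^2 = p |u|^2` -/
theorem norm_theta (u : I → ℂ) (h0 : ∀ k, ∑ c, u (X.pi c k) = 0) (ζ : ℂ) (hζ : ζ ^ p = 1)
    (hζ1 : ζ ≠ 1) :
    ∑ k, ‖∑ c : (ZMod (p ^ 1))ˣ, ζ ^ ((c : ZMod (p ^ 1))).val * u (X.pi c k)‖ ^ 2 =
      (p : ℝ) * ∑ k, ‖u k‖ ^ 2 := by
  have hp := X.prime
  have hz0 : ζ ≠ 0 := by
    intro h
    rw [h, zero_pow hp.ne_zero] at hζ
    exact zero_ne_one hζ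
  have hzn : ‖ζ‖ = 1 := Complex.norm_eq_one_of_pow_eq_one hζ hp.ne_zero
  have hconj : ∀ m : ℕ, conj (ζ ^ m) = (ζ⁻¹) ^ m := by
    intro m
    rw [map_pow, Complex.inv_def, Complex.normSq_eq_norm_sq, hzn]
    simp
  set R : (ZMod (p ^ 1))ˣ → ℂ := fun f => ∑ k, u (X.pi f k) * conj (u k) with hR
  have hR1 : R 1 = ((∑ k, ‖u k‖ ^ 2 : ℝ) : ℂ) := by
    simp only [hR, X.pi_one]
    push_cast
    exact Finset.sum_congr rfl fun k _ => Complex.mul_conj' _
  have hRs : ∑ f, R f = 0 := by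
    simp only [hR]
    rw [Finset.sum_comm]
    refine Finset.sum_eq_zero fun k _ => ?_
    rw [← Finset.sum_mul, h0, zero_mul]
  have hRr : ∀ c e : (ZMod (p ^ 1))ˣ,
      ∑ k, u (X.pi (c * e) k) * conj (u (X.pi e k)) = R c := by
    intro c e
    simp only [hR, X.pi_mul]
    exact sum_pi X e (fun k => u (X.pi c k) * conj (u k))
  have key : ∀ f : (ZMod (p ^ 1))ˣ, ∑ e : (ZMod (p ^ 1))ˣ,
      ζ ^ (((f * e : (ZMod (p ^ 1))ˣ) : ZMod (p ^ 1))).val * (ζ⁻¹) ^ ((e : ZMod (p ^ 1))).val =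
        (if f = 1 then (p : ℂ) else 0) - 1 := by
    intro f
    have h1 : ∀ e : (ZMod (p ^ 1))ˣ,
        ζ ^ (((f * e : (ZMod (p ^ 1))ˣ) : ZMod (p ^ 1))).val * (ζ⁻¹) ^ ((e : ZMod (p ^ 1))).val =
          (ζ ^ ((f : ZMod (p ^ 1))).val * ζ⁻¹) ^ ((e : ZMod (p ^ 1))).val := by
      intro e
      rw [Units.val_mul, pow_val_mul ζ hζ, mul_pow]
    rw [Finset.sum_congr rfl fun e _ => h1 e]
    have h2 : (ζ ^ ((f : ZMod (p ^ 1))).val * ζ⁻¹) ^ p = 1 := by
      rw [mul_pow, ← pow_mul, mul_comm, inv_pow, hζ, mul_comm ((f : ZMod (p ^ 1))).val p, pow_mul,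
        hζ]
      simp
    rw [sum_units hp _ h2]
    have h3 : (ζ ^ ((f : ZMod (p ^ 1))).val * ζ⁻¹ = 1) ↔ f = 1 := by
      constructor
      · intro h
        have h4 : ζ ^ ((f : ZMod (p ^ 1))).val = ζ ^ 1 := by
          rw [pow_one ζ]
          have := congrArg (· * ζ) h
          simpa [mul_assoc, hz0] using this
        have hprim : IsPrimitiveRoot ζ p := by
          have hf : Fact p.Prime := ⟨hp⟩
          have ho : orderOf ζ = p := orderOf_eq_prime hζ hζ1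
          rw [← ho]
          exact IsPrimitiveRoot.orderOf ζ
        have hlt : ((f : ZMod (p ^ 1))).val < p := by
          have := ZMod.val_lt (f : ZMod (p ^ 1))
          simpa using this
        have h5 : ((f : ZMod (p ^ 1))).val = 1 := hprim.pow_inj hlt hp.one_lt h4
        apply Units.ext
        have h6 : (((f : ZMod (p ^ 1))).val : ZMod (p ^ 1)) = (f : ZMod (p ^ 1)) :=
          ZMod.natCast_zmod_val _
        rw [← h6, h5]
        simp
      · intro h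
        subst h
        have h7 : ((1 : (ZMod (p ^ 1))ˣ) : ZMod (p ^ 1)).val = 1 := by
          have : Fact (1 < p ^ 1) := ⟨by simpa using hp.one_lt⟩
          rw [Units.val_one, ZMod.val_one]
        rw [h7, pow_one, mul_inv_cancel₀ hz0]
    by_cases hf : f = 1
    · rw [if_pos (h3.2 hf), if_pos hf]
    · rw [if_neg (fun h => hf (h3.1 h)), if_neg hf]
  have h : ((∑ k, ‖∑ c : (ZMod (p ^ 1))ˣ, ζ ^ ((c : ZMod (p ^ 1))).val * u (X.pi c k)‖ ^ 2 : ℝ) : ℂ) =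
      (((p : ℝ) * ∑ k, ‖u k‖ ^ 2 : ℝ) : ℂ) := by
    rw [Complex.ofReal_sum]
    calc ∑ k, ((‖∑ c : (ZMod (p ^ 1))ˣ, ζ ^ ((c : ZMod (p ^ 1))).val * u (X.pi c k)‖ ^ 2 : ℝ) : ℂ)
        = ∑ k, ∑ c : (ZMod (p ^ 1))ˣ, ∑ e : (ZMod (p ^ 1))ˣ,
            (ζ ^ ((c : ZMod (p ^ 1))).val * (ζ⁻¹) ^ ((e : ZMod (p ^ 1))).val) *
              (u (X.pi c k) * conj (u (X.pi e k))) := by
          refine Finset.sum_congr rfl fun k _ => ?_
          rw [Complex.ofReal_pow, ← Complex.mul_conj', map_sum, Finset.sum_mul_sum]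
          refine Finset.sum_congr rfl fun c _ => Finset.sum_congr rfl fun e _ => ?_
          rw [map_mul, hconj]
          ring
      _ = ∑ e : (ZMod (p ^ 1))ˣ, ∑ c : (ZMod (p ^ 1))ˣ,
            (ζ ^ ((c : ZMod (p ^ 1))).val * (ζ⁻¹) ^ ((e : ZMod (p ^ 1))).val) *
              ∑ k, (u (X.pi c k) * conj (u (X.pi e k))) := by
          rw [Finset.sum_comm]
          have h9 : ∀ c : (ZMod (p ^ 1))ˣ, ∑ k, ∑ e : (ZMod (p ^ 1))ˣ,
              (ζ ^ ((c : ZMod (p ^ 1))).val * (ζ⁻¹) ^ ((e : ZMod (p ^ 1))).val) *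
                (u (X.pi c k) * conj (u (X.pi e k))) =
              ∑ e : (ZMod (p ^ 1))ˣ,
              (ζ ^ ((c : ZMod (p ^ 1))).val * (ζ⁻¹) ^ ((e : ZMod (p ^ 1))).val) *
                ∑ k, (u (X.pi c k) * conj (u (X.pi e k))) := by
            intro c
            rw [Finset.sum_comm]
            exact Finset.sum_congr rfl fun e _ => (Finset.mul_sum _ _ _).symm
          rw [Finset.sum_congr rfl fun c _ => h9 c, Finset.sum_comm]
      _ = ∑ e : (ZMod (p ^ 1))ˣ, ∑ f : (ZMod (p ^ 1))ˣ,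
            (ζ ^ (((f * e : (ZMod (p ^ 1))ˣ) : ZMod (p ^ 1))).val *
              (ζ⁻¹) ^ ((e : ZMod (p ^ 1))).val) * R f := by
          refine Finset.sum_congr rfl fun e _ => ?_
          rw [← sum_mul_right' e]
          exact Finset.sum_congr rfl fun f _ => by rw [hRr f e]
      _ = ∑ f : (ZMod (p ^ 1))ˣ, ((if f = 1 then (p : ℂ) else 0) - 1) * R f := by
          rw [Finset.sum_comm]
          refine Finset.sum_congr rfl fun f _ => ?_
          rw [← Finset.sum_mul, key f]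
      _ = (p : ℂ) * R 1 - ∑ f, R f := by
          simp only [sub_mul, one_mul, Finset.sum_sub_distrib, ite_mul, zero_mul]
          simp
      _ = (((p : ℝ) * ∑ k, ‖u k‖ ^ 2 : ℝ) : ℂ) := by
          rw [hRs, hR1, sub_zero, Complex.ofReal_mul, Complex.ofReal_natCast]
  exact_mod_cast h

theorem ip_zero (hp : (p : ℂ) - 1 ≠ 0)
    (hcard : ((Fintype.card (ZMod (p ^ 1))ˣ : ℕ) : ℂ) = (p : ℂ) - 1)
    (v y : I → ℂ) (hv : ∀ c k, v (X.pi c k) = v k) (hy : ∀ k, ∑ c, y (X.pi c k) = 0) :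
    ∑ i, v i * y i = 0 := by
  have h2 : ((Fintype.card (ZMod (p ^ 1))ˣ : ℕ) : ℂ) * ∑ i, v i * y i = 0 := by
    calc ((Fintype.card (ZMod (p ^ 1))ˣ : ℕ) : ℂ) * ∑ i, v i * y i
        = ∑ _c : (ZMod (p ^ 1))ˣ, ∑ i, v i * y i := by
          rw [Finset.sum_const, nsmul_eq_mul, Finset.card_univ]
      _ = ∑ c : (ZMod (p ^ 1))ˣ, ∑ i, v i * y (X.pi c i) := by
          refine Finset.sum_congr rfl fun c _ => ?_
          rw [← sum_pi X c (fun i => v i * y i)]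
          exact Finset.sum_congr rfl fun i _ => by rw [hv]
      _ = ∑ i, v i * ∑ c, y (X.pi c i) := by
          rw [Finset.sum_comm]
          exact Finset.sum_congr rfl fun i _ => (Finset.mul_sum _ _ _).symm
      _ = 0 := by simp [hy]
  rw [hcard] at h2
  exact (mul_eq_zero.1 h2).resolve_left hp

/-- the operator `Θ` -/
noncomputable def Th (ζ : ℂ) (x : I → ℂ) (k : I) : ℂ :=
  ∑ c : (ZMod (p ^ 1))ˣ, ζ ^ ((c : ZMod (p ^ 1))).val * x (X.pi c k)

theorem t_pi {c : (ZMod (p ^ 1))ˣ} {k : I} (h : X.t (X.pi c k) = 1) : X.t k = 1 := by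
  have h1 : k = X.pi c⁻¹ (X.pi c k) := by
    rw [← X.pi_mul, inv_mul_cancel, X.pi_one]
  rw [h1, X.pi_t, h, one_pow]

end

open Classical in
theorem hE3 : StE3 := by
  intro hE2 hE4 hORB I _ _ p _ X u hu ζ hζ hζ1
  have hp := X.prime
  have hcardN : Fintype.card (ZMod (p ^ 1))ˣ = p - 1 := by
    rw [ZMod.card_units_eq_totient, pow_one, Nat.totient_prime hp]
  have hcard : ((Fintype.card (ZMod (p ^ 1))ˣ : ℕ) : ℂ) = (p : ℂ) - 1 := by
    rw [hcardN, Nat.cast_sub hp.one_lt.le, Nat.cast_one]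
  have hp1 : (p : ℂ) - 1 ≠ 0 := by
    rw [sub_ne_zero]
    exact_mod_cast hp.one_lt.ne'
  obtain ⟨u0, hu0⟩ : ∃ u0 : I → ℂ, u0 = fun k => ((p : ℂ) - 1)⁻¹ * ∑ c, u (X.pi c k) := ⟨_, rfl⟩
  obtain ⟨u1, hu1⟩ : ∃ u1 : I → ℂ, u1 = fun k => u k - u0 k := ⟨_, rfl⟩
  have hsum : ∀ k, u k = u0 k + u1 k := by
    intro k
    rw [hu1]
    ring
  have inv0 : ∀ c k, u0 (X.pi c k) = u0 k := by
    intro c k
    rw [hu0]
    simp only
    congr 1
    have h1 : ∀ e, u (X.pi e (X.pi c k)) = u (X.pi (e * c) k) := fun e => by rw [X.pi_mul]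
    rw [Finset.sum_congr rfl fun e _ => h1 e]
    exact sum_mul_right' c (fun e => u (X.pi e k))
  have orb1 : ∀ k, ∑ c, u1 (X.pi c k) = 0 := by
    intro k
    have h1 : ∑ c, u1 (X.pi c k) = ∑ c, u (X.pi c k) - ∑ _c : (ZMod (p ^ 1))ˣ, u0 k := by
      rw [← Finset.sum_sub_distrib]
      refine Finset.sum_congr rfl fun c _ => ?_
      rw [hu1]
      simp only
      rw [inv0]
    rw [h1, Finset.sum_const, Finset.card_univ, nsmul_eq_mul, hcard, hu0]
    simp only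
    rw [← mul_assoc, mul_inv_cancel₀ hp1, one_mul, sub_self]
  have supp0 : ∀ i, u0 i ≠ 0 → X.t i = 1 := by
    intro i hi
    rw [hu0] at hi
    simp only at hi
    have h1 : ∑ c, u (X.pi c i) ≠ 0 := right_ne_zero_of_mul hi
    obtain ⟨c, _, hc⟩ := Finset.exists_ne_zero_of_sum_ne_zero h1
    exact t_pi X (hu _ hc)
  have supp1 : ∀ i, u1 i ≠ 0 → X.t i = 1 := by
    intro i hi
    by_cases h0 : u0 i = 0
    · refine hu i ?_
      rw [hsum i, h0, zero_add]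
      exact hi
    · exact supp0 i h0
  have conj0 : ∀ c k, conj (u0 (X.pi c k)) = conj (u0 k) := fun c k => by rw [inv0]
  have conjorb : ∀ k, ∑ c, conj (u1 (X.pi c k)) = 0 := by
    intro k
    rw [← map_sum, orb1, map_zero]
  -- norms
  have hnorm : (∑ k, ‖u k‖ ^ 2) = (∑ k, ‖u0 k‖ ^ 2) + ∑ k, ‖u1 k‖ ^ 2 := by
    have h1 : ((∑ k, ‖u k‖ ^ 2 : ℝ) : ℂ) =
        (((∑ k, ‖u0 k‖ ^ 2) + ∑ k, ‖u1 k‖ ^ 2 : ℝ) : ℂ) := by
      push_cast
      have h2 : ∀ k, ((‖u k‖ : ℝ) : ℂ) ^ 2 = ((‖u0 k‖ : ℝ) : ℂ) ^ 2 + ((‖u1 k‖ : ℝ) : ℂ) ^ 2 +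
          conj (u0 k) * u1 k + u0 k * conj (u1 k) := by
        intro k
        rw [← Complex.mul_conj', ← Complex.mul_conj', ← Complex.mul_conj', hsum k, map_add]
        ring
      rw [Finset.sum_congr rfl fun k _ => h2 k, Finset.sum_add_distrib, Finset.sum_add_distrib,
        Finset.sum_add_distrib,
        ip_zero X hp1 hcard (fun k => conj (u0 k)) u1 conj0 orb1,
        ip_zero X hp1 hcard u0 (fun k => conj (u1 k)) inv0 conjorb, add_zero, add_zero]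
    exact_mod_cast h1
  -- theta
  have th0 : ∀ k, Th X ζ u0 k = -u0 k := by
    intro k
    unfold Th
    have h1 : ∑ c : (ZMod (p ^ 1))ˣ, ζ ^ ((c : ZMod (p ^ 1))).val * u0 (X.pi c k) =
        (∑ c : (ZMod (p ^ 1))ˣ, ζ ^ ((c : ZMod (p ^ 1))).val) * u0 k := by
      rw [Finset.sum_mul]
      exact Finset.sum_congr rfl fun c _ => by rw [inv0]
    rw [h1, sum_units hp ζ hζ, if_neg hζ1]
    ring
  have thadd : ∀ k, Th X ζ u k = -u0 k + Th X ζ u1 k := by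
    intro k
    rw [← th0 k]
    unfold Th
    rw [← Finset.sum_add_distrib]
    refine Finset.sum_congr rfl fun c _ => ?_
    rw [hsum (X.pi c k)]
    ring
  have thorb : ∀ k, ∑ e, Th X ζ u1 (X.pi e k) = 0 := by
    intro k
    unfold Th
    rw [Finset.sum_comm]
    refine Finset.sum_eq_zero fun c _ => ?_
    rw [← Finset.mul_sum]
    have h1 : ∀ e, u1 (X.pi c (X.pi e k)) = u1 (X.pi e (X.pi c k)) := by
      intro e
      rw [← X.pi_mul, ← X.pi_mul, mul_comm]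
    rw [Finset.sum_congr rfl fun e _ => h1 e, orb1, mul_zero]
  have thsupp : ∀ i, Th X ζ u1 i ≠ 0 → X.t i = 1 := by
    intro i hi
    unfold Th at hi
    obtain ⟨c, _, hc⟩ := Finset.exists_ne_zero_of_sum_ne_zero hi
    exact t_pi X (supp1 _ (right_ne_zero_of_mul hc))
  -- the main identity
  have hmain := hE2 I p X u hu ζ hζ
  have hB : ∑ c : (ZMod (p ^ 1))ˣ,
      ζ ^ (((c⁻¹ : (ZMod (p ^ 1))ˣ) : ZMod (p ^ 1))).val *
        ∑ i, ∑ k, conj (u i) * (X.s i (X.pi c k) * u k) =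
      ∑ i, conj (u i) * ∑ k, X.s i k * Th X ζ u k := by
    have h1 : ∀ c : (ZMod (p ^ 1))ˣ, ∑ i, ∑ k, conj (u i) * (X.s i (X.pi c k) * u k) =
        ∑ i, ∑ k, conj (u i) * (X.s i k * u (X.pi c⁻¹ k)) := by
      intro c
      refine Finset.sum_congr rfl fun i _ => ?_
      rw [← sum_pi X c⁻¹ (fun k => conj (u i) * (X.s i (X.pi c k) * u k))]
      refine Finset.sum_congr rfl fun k _ => ?_
      rw [← X.pi_mul c, mul_inv_cancel, X.pi_one]
    calc ∑ c : (ZMod (p ^ 1))ˣ,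
          ζ ^ (((c⁻¹ : (ZMod (p ^ 1))ˣ) : ZMod (p ^ 1))).val *
            ∑ i, ∑ k, conj (u i) * (X.s i (X.pi c k) * u k)
        = ∑ c : (ZMod (p ^ 1))ˣ,
          ζ ^ (((c⁻¹ : (ZMod (p ^ 1))ˣ) : ZMod (p ^ 1))).val *
            ∑ i, ∑ k, conj (u i) * (X.s i k * u (X.pi c⁻¹ k)) :=
          Finset.sum_congr rfl fun c _ => by rw [h1]
      _ = ∑ c : (ZMod (p ^ 1))ˣ,
          ζ ^ ((c : ZMod (p ^ 1))).val *
            ∑ i, ∑ k, conj (u i) * (X.s i k * u (X.pi c k)) :=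
          Fintype.sum_equiv (Equiv.inv _) _ _ (fun c => rfl)
      _ = ∑ i, conj (u i) * ∑ k, X.s i k * Th X ζ u k := by
          simp only [Finset.mul_sum]
          rw [Finset.sum_comm]
          refine Finset.sum_congr rfl fun i _ => ?_
          rw [Finset.sum_comm]
          refine Finset.sum_congr rfl fun k _ => ?_
          unfold Th
          rw [Finset.mul_sum, Finset.mul_sum]
          refine Finset.sum_congr rfl fun c _ => ?_
          ring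
  have hB2 : ∑ i, conj (u i) * ∑ k, X.s i k * Th X ζ u k =
      -(∑ i, conj (u0 i) * ∑ k, X.s i k * u0 k) +
        ∑ i, conj (u1 i) * ∑ k, X.s i k * Th X ζ u1 k := by
    have z1 := bil_zero X hp1 hcard (fun k => conj (u0 k)) (Th X ζ u1) conj0 thorb
    have z2 := bil_zero X hp1 hcard u0 (fun k => conj (u1 k)) inv0 conjorb
    have z1' : ∑ i, conj (u0 i) * ∑ k, X.s i k * Th X ζ u1 k = 0 := by
      rw [← z1]
      exact Finset.sum_congr rfl fun i _ => Finset.mul_sum _ _ _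
    have z2' : ∑ i, conj (u1 i) * ∑ k, X.s i k * u0 k = 0 := by
      rw [← z2]
      simp only [Finset.mul_sum]
      rw [Finset.sum_comm]
      refine Finset.sum_congr rfl fun i _ => Finset.sum_congr rfl fun k _ => ?_
      rw [X.s_symm k i]
      ring
    have h1 : ∀ i, conj (u i) * ∑ k, X.s i k * Th X ζ u k =
        -(conj (u0 i) * ∑ k, X.s i k * u0 k) + conj (u0 i) * ∑ k, X.s i k * Th X ζ u1 k
          - conj (u1 i) * ∑ k, X.s i k * u0 k + conj (u1 i) * ∑ k, X.s i k * Th X ζ u1 k := by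
      intro i
      have h2 : ∑ k, X.s i k * Th X ζ u k =
          -(∑ k, X.s i k * u0 k) + ∑ k, X.s i k * Th X ζ u1 k := by
        rw [← Finset.sum_neg_distrib, ← Finset.sum_add_distrib]
        refine Finset.sum_congr rfl fun k _ => ?_
        rw [thadd]
        ring
      rw [h2, hsum i, map_add]
      ring
    rw [Finset.sum_congr rfl fun i _ => h1 i, Finset.sum_add_distrib, Finset.sum_sub_distrib,
      Finset.sum_add_distrib, z1', z2', Finset.sum_neg_distrib]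
    ring
  have b0 : ‖∑ i, conj (u0 i) * ∑ k, X.s i k * u0 k‖ ≤ (p : ℝ) * ∑ k, ‖u0 k‖ ^ 2 := by
    refine cs (fun _ => True) u0 (fun i => ∑ k, X.s i k * u0 k) (fun _ _ => trivial) (p : ℝ) _
      (by positivity) rfl ?_
    simp only [if_true]
    exact (norm_s X u0).le
  have b1 : ‖∑ i, conj (u1 i) * ∑ k, X.s i k * Th X ζ u1 k‖ ≤ (p : ℝ) * ∑ k, ‖u1 k‖ ^ 2 := by
    refine cs (fun i => X.t i = 1) u1 (fun i => ∑ k, X.s i k * Th X ζ u1 k) supp1 (p : ℝ) _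
      (by positivity) rfl ?_
    have h4 := hE4 hE2 hORB I p X (Th X ζ u1) thsupp thorb
    have h5 : ∑ k, ‖Th X ζ u1 k‖ ^ 2 = (p : ℝ) * ∑ k, ‖u1 k‖ ^ 2 :=
      norm_theta X u1 orb1 ζ hζ hζ1
    rw [h5] at h4
    have h6 : (∑ i, if X.t i = 1 then ‖∑ k, X.s i k * Th X ζ u1 k‖ ^ 2 else 0) =
        (p : ℝ) ^ 2 * ∑ k, ‖u1 k‖ ^ 2 := by
      rw [h4]
      ring
    exact h6.le
  set A : ℝ := ∑ j, if X.t j = ζ then ‖∑ k, X.s j k * u k‖ ^ 2 else 0 with hA
  have hA0 : 0 ≤ A := by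
    rw [hA]
    refine Finset.sum_nonneg fun j _ => ?_
    split_ifs <;> positivity
  have hA1 : A = ‖((A : ℝ) : ℂ)‖ := by
    rw [Complex.norm_real, Real.norm_of_nonneg hA0]
  rw [hA1, hmain, hB, hB2]
  have hN : 0 ≤ ∑ k, ‖u k‖ ^ 2 := by positivity
  calc ‖(p : ℂ) * ((∑ k, ‖u k‖ ^ 2 : ℝ) : ℂ) +
        (-(∑ i, conj (u0 i) * ∑ k, X.s i k * u0 k) +
          ∑ i, conj (u1 i) * ∑ k, X.s i k * Th X ζ u1 k)‖
      ≤ ‖(p : ℂ) * ((∑ k, ‖u k‖ ^ 2 : ℝ) : ℂ)‖ +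
        (‖∑ i, conj (u0 i) * ∑ k, X.s i k * u0 k‖ +
          ‖∑ i, conj (u1 i) * ∑ k, X.s i k * Th X ζ u1 k‖) := by
        refine (norm_add_le _ _).trans (add_le_add le_rfl ((norm_add_le _ _).trans ?_))
        rw [norm_neg]
    _ ≤ (p : ℝ) * (∑ k, ‖u k‖ ^ 2) + ((p : ℝ) * (∑ k, ‖u0 k‖ ^ 2) + (p : ℝ) * ∑ k, ‖u1 k‖ ^ 2) := by
        refine add_le_add ?_ (add_le_add b0 b1)
        rw [norm_mul, Complex.norm_natCast, Complex.norm_real, Real.norm_of_nonneg hN]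
    _ = 2 * (p : ℝ) * ∑ k, ‖u k‖ ^ 2 := by
        rw [hnorm]
        ring

end Pool.Agent.Helper4.PQ1.E3
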