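import Pool.Agent.Helper4.PQ1.Defs

/-!
# OC MODULE E4
-/

set_option autoImplicit false

namespace Pool.Agent.Helper4.PQ1.E4

open Pool.Agent.Helper4.PQ0 Pool.Agent.Helper4.PQ1
open Pool.Agent.Helper94.YF hiding StORB
open Pool.Agent.Helper89.OS hiding PD Cx Blk B0 Orb StXA StXB StXC StXE StCGR StISO StBLK StAMG StHEC StSTL StMZZ StDRE StTSU
open Pool.Agent.Helper89.OC hiding Ks gX OB Lk StORB StTS2 StLKD StTAN StE2 StE4 StE3 StIB StRB StMXX StGPZ StGPP StKSS StLKN StGA2 GA Gam Kp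

open Matrix ComplexConjugate Pool.Agent.Helper94.YG

open Classical in
private theorem reidx {I : Type} [Fintype I] [DecidableEq I] {p : ℕ} [NeZero p] (X : PD I p 1)
    (hOB : OB X) (u : I → ℂ) (c : (ZMod (p ^ 1))ˣ) (i : I) :
    ∑ k, (X.s i (X.pi c k) * u k) = ∑ k, X.s i k * u (X.pi c⁻¹ k) := by
  refine Fintype.sum_bijective (X.pi c) (hOB.bij c) _ _ ?_
  intro k
  have h : X.pi c⁻¹ (X.pi c k) = k := by
    rw [← X.pi_mul, inv_mul_cancel, X.pi_one]
  rw [h]

open Classical in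
private theorem invsum {I : Type} [Fintype I] [DecidableEq I] {p : ℕ} [NeZero p] (X : PD I p 1)
    (u : I → ℂ) (k : I) :
    ∑ c, u (X.pi c⁻¹ k) = ∑ c, u (X.pi c k) :=
  Fintype.sum_equiv (Equiv.inv _) _ _ (fun _ => rfl)

open Classical in
theorem hE4 : StE4 := by
  intro hE2 hORB I _ _ p _ X u hu hsum
  have hOB := hORB I p X
  have h1 := hE2 I p X u hu 1 (one_pow p)
  have hz : ∑ c : (ZMod (p ^ 1))ˣ,
      (1 : ℂ) ^ (((c⁻¹ : (ZMod (p ^ 1))ˣ) : ZMod (p ^ 1))).val *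
        ∑ i, ∑ k, conj (u i) * (X.s i (X.pi c k) * u k) = 0 := by
    have e1 : ∀ c : (ZMod (p ^ 1))ˣ,
        (1 : ℂ) ^ (((c⁻¹ : (ZMod (p ^ 1))ˣ) : ZMod (p ^ 1))).val *
        ∑ i, ∑ k, conj (u i) * (X.s i (X.pi c k) * u k) =
        ∑ i, ∑ k, conj (u i) * X.s i k * u (X.pi c⁻¹ k) := by
      intro c
      rw [one_pow, one_mul]
      refine Finset.sum_congr rfl ?_
      intro i _
      rw [← Finset.mul_sum, reidx X hOB u c i, Finset.mul_sum]
      refine Finset.sum_congr rfl ?_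
      intro k _
      ring
    rw [Finset.sum_congr rfl (fun c _ => e1 c), Finset.sum_comm]
    refine Finset.sum_eq_zero ?_
    intro i _
    rw [Finset.sum_comm]
    refine Finset.sum_eq_zero ?_
    intro k _
    rw [← Finset.mul_sum, invsum X u k, hsum k, mul_zero]
  rw [hz, add_zero] at h1
  exact_mod_cast h1

end Pool.Agent.Helper4.PQ1.E4
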