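import Pool.Agent.Helper4.PQ1.Defs

set_option autoImplicit false

namespace Pool.Agent.Helper4.PQ1.GA2

open Pool.Agent.Helper4.PQ0 Pool.Agent.Helper4.PQ1
open Pool.Agent.Helper94.YF hiding StORB
open Pool.Agent.Helper89.OS hiding PD Cx Blk B0 Orb StXA StXB StXC StXE StCGR StISO StBLK StAMG StHEC StSTL StMZZ StDRE StTSU
open Pool.Agent.Helper89.OC hiding Ks gX OB Lk StORB StTS2 StLKD StTAN StE2 StE4 StE3 StIB StRB StMXX StGPZ StGPP StKSS StLKN StGA2 GA Gam Kp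

open Matrix ComplexConjugate Pool.Agent.Helper94.YG

/-- an automorphism of a field `K` extends to an automorphism of an algebraically closed extension `ℂ` -/
private theorem ga2_ext_aut {K : Type} [Field K] [Algebra K ℂ] (t : K ≃+* K) :
    ∃ s : ℂ ≃+* ℂ, ∀ x, s (algebraMap K ℂ x) = algebraMap K ℂ (t x) := by
  have hinj : Function.Injective (algebraMap K ℂ) := (algebraMap K ℂ).injective
  obtain ⟨w, hw⟩ := exists_isTranscendenceBasis K ℂ
  let _ := IsAlgClosed.isAlgClosure_of_transcendence_basis _ hw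
  let e : Algebra.adjoin K (Set.range ((↑) : w → ℂ)) ≃+*
      Algebra.adjoin K (Set.range ((↑) : w → ℂ)) :=
    (hw.1.aevalEquiv.symm.toRingEquiv.trans (MvPolynomial.mapEquiv w t)).trans
      hw.1.aevalEquiv.toRingEquiv
  refine ⟨IsAlgClosure.equivOfEquiv ℂ ℂ e, fun x => ?_⟩
  have h1 : algebraMap (Algebra.adjoin K (Set.range ((↑) : w → ℂ))) ℂ
      (algebraMap K _ x) = algebraMap K ℂ x := rfl
  have h2 : e (algebraMap K _ x) = algebraMap K _ (t x) := by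
    change hw.1.aevalEquiv (MvPolynomial.mapEquiv w t (hw.1.aevalEquiv.symm
      (algebraMap K _ x))) = _
    rw [AlgEquiv.commutes, MvPolynomial.algebraMap_eq, MvPolynomial.mapEquiv_apply,
      MvPolynomial.map_C, ← MvPolynomial.algebraMap_eq, AlgEquiv.commutes]
    rfl
  rw [← h1, IsAlgClosure.equivOfEquiv_algebraMap, h2]
  rfl

/-- automorphisms of `ℂ` act on roots of unity by arbitrary exponents prime to the order -/
private theorem ga2_cyc_aut' (L : ℕ) (hL : 0 < L) (c : (ZMod L)ˣ) (K : Type) [Field K] [Algebra ℚ K]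
    [IsCyclotomicExtension {L} ℚ K] [Algebra K ℂ] :
    ∃ s : ℂ ≃+* ℂ, ∀ x : ℂ, x ^ L = 1 → s x = x ^ (c : ZMod L).val := by
  have : NeZero L := ⟨hL.ne'⟩
  have hz := IsCyclotomicExtension.zeta_spec L ℚ K
  have hzc : IsPrimitiveRoot (IsCyclotomicExtension.zeta L ℚ K ^ (c : ZMod L).val) L :=
    hz.pow_of_coprime _ (ZMod.val_coe_unit_coprime c)
  obtain ⟨t, ht⟩ : ∃ t : K ≃ₐ[ℚ] K, t (IsCyclotomicExtension.zeta L ℚ K) =
      IsCyclotomicExtension.zeta L ℚ K ^ (c : ZMod L).val :=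
    ⟨_, IsCyclotomicExtension.fromZetaAut_spec hzc (Polynomial.cyclotomic.irreducible_rat hL)⟩
  obtain ⟨s, hs⟩ := ga2_ext_aut (K := K) t.toRingEquiv
  refine ⟨s, fun x hx => ?_⟩
  have hzf : IsPrimitiveRoot (algebraMap K ℂ (IsCyclotomicExtension.zeta L ℚ K)) L :=
    hz.map_of_injective (algebraMap K ℂ).injective
  obtain ⟨k, _, rfl⟩ := hzf.eq_pow_of_pow_eq_one hx
  have h3 := hs (IsCyclotomicExtension.zeta L ℚ K)
  have h4 : t.toRingEquiv (IsCyclotomicExtension.zeta L ℚ K) =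
      IsCyclotomicExtension.zeta L ℚ K ^ (c : ZMod L).val := ht
  rw [map_pow, h3, h4, map_pow, ← pow_mul, ← pow_mul, mul_comm]

private theorem ga2_cyc_aut (L : ℕ) (hL : 0 < L) (c : (ZMod L)ˣ) :
    ∃ s : ℂ ≃+* ℂ, ∀ x : ℂ, x ^ L = 1 → s x = x ^ (c : ZMod L).val := by
  have : NeZero L := ⟨hL.ne'⟩
  have : NeZero ((L : ℕ) : ℚ) := ⟨by exact_mod_cast hL.ne'⟩
  let f : CyclotomicField L ℚ →ₐ[ℚ] ℂ := IsAlgClosed.lift
  exact @ga2_cyc_aut' L hL c (CyclotomicField L ℚ) _ (CyclotomicField.algebra L ℚ)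
    (CyclotomicField.isCyclotomicExtension L ℚ) f.toRingHom.toAlgebra

/-- reduction of exponents -/
private theorem ga2_mod {q : ℕ} (a : ℂ) (ha : a ^ q = 1) (n : ℕ) : a ^ n = a ^ (n % q) := by
  conv_lhs => rw [← Nat.div_add_mod n q]
  rw [pow_add, pow_mul, ha, one_pow, one_mul]

/-- powers with exponents in `ZMod q`: product of exponents -/
private theorem ga2_pow_mul {q : ℕ} (a : ℂ) (ha : a ^ q = 1) (x y : ZMod q) :
    (a ^ x.val) ^ y.val = a ^ (x * y).val := by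
  rw [← pow_mul, ZMod.val_mul, ← ga2_mod a ha]

/-- powers with exponents in `ZMod q`: sum of exponents -/
private theorem ga2_pow_add {q : ℕ} [NeZero q] (a : ℂ) (ha : a ^ q = 1) (x y : ZMod q) :
    a ^ x.val * a ^ y.val = a ^ (x + y).val := by
  rw [← pow_add, ZMod.val_add, ← ga2_mod a ha]

/-- a nontrivial root of unity of prime order detects zero -/
private theorem ga2_zero {q : ℕ} [NeZero q] (hq : q.Prime) (a : ℂ) (ha : a ^ q = 1) (h1 : a ≠ 1)
    (x : ZMod q) (hx : a ^ x.val = 1) : x = 0 := by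
  have h2 : orderOf a ∣ q := orderOf_dvd_of_pow_eq_one ha
  have h3 : orderOf a = q := by
    rcases (Nat.dvd_prime hq).1 h2 with h | h
    · exact absurd (orderOf_eq_one_iff.1 h) h1
    · exact h
  have h4 : q ∣ x.val := by
    have h5 : orderOf a ∣ x.val := orderOf_dvd_of_pow_eq_one hx
    exact (dvd_of_eq h3.symm).trans h5
  have h5 : x.val = 0 := Nat.eq_zero_of_dvd_of_lt h4 (ZMod.val_lt x)
  exact (ZMod.val_eq_zero x).1 h5

/-- the Galois action -/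
private theorem ga2_gal {I : Type} [Fintype I] [DecidableEq I] {p : ℕ} [NeZero p] (X : PD I p 1)
    (σ : ℂ ≃+* ℂ) (w : (ZMod (p ^ 1))ˣ)
    (hσ : ∀ ζ : ℂ, ζ ^ p = 1 → σ ζ = ζ ^ (w : ZMod (p ^ 1)).val) (i j : I) :
    σ (X.s i j) = X.s i (X.pi w j) := by
  have hp : p.Prime := X.prime
  have hq : (p ^ 1).Prime := by
    rw [pow_one]
    exact hp
  have hne : NeZero (p ^ 1) := ⟨hq.ne_zero⟩
  have hp0 : (p : ℂ) ≠ 0 := by exact_mod_cast hp.ne_zero
  have htq : ∀ i, X.t i ^ (p ^ 1) = 1 := X.t_pow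
  have htp : ∀ i, X.t i ^ p = 1 := fun i => by
    have := X.t_pow i
    rwa [pow_one] at this
  have ht0 : ∀ i, X.t i ≠ 0 := fun i h => by
    have := htq i
    rw [h, zero_pow hq.ne_zero] at this
    exact zero_ne_one this
  obtain ⟨c, hc⟩ := X.gal σ
  have hσt : ∀ (i : I) (x : ZMod (p ^ 1)),
      σ (X.t i ^ x.val) = X.t i ^ ((w : ZMod (p ^ 1)) * x).val := by
    intro i x
    rw [map_pow, hσ _ (htp i)]
    exact ga2_pow_mul _ (htq i) _ _
  have main : ∀ i j, X.t i ^ ((c : ZMod (p ^ 1)) ^ 2 * -((w⁻¹ : (ZMod (p ^ 1))ˣ) : ZMod (p ^ 1))).val *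
      X.t j ^ ((c : ZMod (p ^ 1)) ^ 2 * -((w⁻¹ : (ZMod (p ^ 1))ˣ) : ZMod (p ^ 1))).val *
        X.s i (X.pi (c * (w⁻¹ * c)) j) =
      X.t i ^ (-(w : ZMod (p ^ 1))).val * X.t j ^ (-(w : ZMod (p ^ 1))).val *
        X.s i (X.pi c j) := by
    intro i j
    have h1 := congrArg σ (X.weil 1 i j)
    have hL : σ (∑ k, X.t k ^ ((1 : (ZMod (p ^ 1))ˣ) : ZMod (p ^ 1)).val * (X.s i k * X.s k j)) =
        ∑ k, X.t k ^ (w : ZMod (p ^ 1)).val * (X.s (X.pi c i) k * X.s k (X.pi c j)) := by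
      rw [map_sum]
      refine Finset.sum_congr rfl fun k _ => ?_
      rw [map_mul, map_mul, hσt, hc, hc, X.pi_s, Units.val_one, mul_one]
    rw [hL, X.weil w (X.pi c i) (X.pi c j)] at h1
    rw [map_mul, map_mul, map_mul, map_natCast, hσt, hσt, hc, X.pi_t, X.pi_t,
      ga2_pow_mul _ (htq i), ga2_pow_mul _ (htq j), X.pi_s, ← X.pi_mul, ← X.pi_mul, inv_one,
      X.pi_one, Units.val_one, mul_neg_one, mul_assoc, mul_assoc (p : ℂ)] at h1
    rw [← mul_assoc c w⁻¹ c]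
    exact mul_left_cancel₀ hp0 h1
  -- comparison of the exponents
  have hcw : (c : ZMod (p ^ 1)) ^ 2 * -((w⁻¹ : (ZMod (p ^ 1))ˣ) : ZMod (p ^ 1)) =
      -(w : ZMod (p ^ 1)) := by
    obtain ⟨k, hk1, hk2⟩ := X.ex
    have h1 := main k X.o
    rw [X.pi_o, X.pi_o, X.t_o, one_pow, one_pow, mul_one, mul_one, X.s_o] at h1
    have hy : (X.y k : ℂ) ≠ 0 := by exact_mod_cast hk1
    have h2 := mul_right_cancel₀ hy h1
    have hk3 : X.t k ≠ 1 := by
      intro h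
      exact hk2 (by rw [h, one_pow])
    set u : ZMod (p ^ 1) := (c : ZMod (p ^ 1)) ^ 2 * -((w⁻¹ : (ZMod (p ^ 1))ˣ) : ZMod (p ^ 1))
      with hu
    have h3 : X.t k ^ (u + (w : ZMod (p ^ 1))).val = 1 := by
      rw [← ga2_pow_add _ (htq k), h2, ga2_pow_add _ (htq k), neg_add_cancel, ZMod.val_zero,
        pow_zero]
    have h4 := ga2_zero hq _ (htq k) hk3 _ h3
    exact eq_neg_of_add_eq_zero_left h4
  have hcc : c * (w⁻¹ * c) = w := by
    apply Units.ext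
    rw [Units.val_mul, Units.val_mul]
    have h1 : (c : ZMod (p ^ 1)) ^ 2 * ((w⁻¹ : (ZMod (p ^ 1))ˣ) : ZMod (p ^ 1)) =
        (w : ZMod (p ^ 1)) := by
      rw [mul_neg] at hcw
      exact neg_injective hcw
    rw [← h1]
    ring
  have h := main i j
  rw [hcw, hcc] at h
  have hn : X.t i ^ (-(w : ZMod (p ^ 1))).val * X.t j ^ (-(w : ZMod (p ^ 1))).val ≠ 0 :=
    mul_ne_zero (pow_ne_zero _ (ht0 i)) (pow_ne_zero _ (ht0 j))
  rw [hc]
  exact (mul_left_cancel₀ hn h).symm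

/-- OC module GA2 -/
theorem hGA2 : StGA2 := by
  intro I _ _ p _ X hst
  have hp : p.Prime := X.prime
  have hq : (p ^ 1).Prime := by
    rw [pow_one]
    exact hp
  have hp0 : (p : ℂ) ≠ 0 := by exact_mod_cast hp.ne_zero
  have exs : ∀ w : (ZMod (p ^ 1))ˣ, ∃ σ : ℂ ≃+* ℂ, ∀ ζ : ℂ, ζ ^ p = 1 →
      σ ζ = ζ ^ (w : ZMod (p ^ 1)).val := by
    intro w
    obtain ⟨s, hs⟩ := ga2_cyc_aut (p ^ 1) hq.pos w
    exact ⟨s, fun ζ hζ => hs ζ (by rw [pow_one]; exact hζ)⟩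
  refine ⟨fun σ w hσ i j => ga2_gal X σ w hσ i j, exs, ?_⟩
  intro c j
  obtain ⟨σ, hσ⟩ := exs c
  have h1 : ∀ i, X.s i (X.pi c (X.st j)) = X.s i (X.st (X.pi c j)) := by
    intro i
    have h2 : σ (X.s (X.st (X.st i)) (X.st j)) = σ (X.s (X.st i) j) := by rw [hst]
    rw [ga2_gal X σ c hσ, ga2_gal X σ c hσ, X.st_st, ← hst (X.st i) (X.pi c j), X.st_st] at h2
    exact h2
  set a := X.pi c (X.st j) with ha
  set b := X.st (X.pi c j) with hb
  by_contra hab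
  have h3 := X.s_uni a b
  rw [if_neg hab] at h3
  have h4 := X.s_uni a a
  rw [if_pos rfl] at h4
  have h5 : ∀ k, X.s b k = X.s a k := by
    intro k
    rw [X.s_symm b k, X.s_symm a k]
    exact (h1 k).symm
  simp only [h5] at h3
  rw [h4] at h3
  exact pow_ne_zero 2 hp0 h3

end Pool.Agent.Helper4.PQ1.GA2
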