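import Pool.Agent.Helper4.PQ1.Defs

/-!
# OC module GPP (project OC, MP_2b6189_al): the partner orbit
-/

set_option autoImplicit false

namespace Pool.Agent.Helper4.PQ1.GPP

open Pool.Agent.Helper4.PQ0 Pool.Agent.Helper4.PQ1
open Pool.Agent.Helper94.YF hiding StORB
open Pool.Agent.Helper89.OS hiding PD Cx Blk B0 Orb StXA StXB StXC StXE StCGR StISO StBLK StAMG StHEC StSTL StMZZ StDRE StTSU
open Pool.Agent.Helper89.OC hiding Ks gX OB Lk StORB StTS2 StLKD StTAN StE2 StE4 StE3 StIB StRB StMXX StGPZ StGPP StKSS StLKN StGA2 GA Gam Kp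

open Matrix ComplexConjugate Pool.Agent.Helper94.YG

/-- the stabiliser of `k` -/
private def Stab {I : Type} [Fintype I] [DecidableEq I] {p : ℕ} (X : PD I p 1) (k : I) :
    Subgroup (ZMod (p ^ 1))ˣ where
  carrier := {c | X.pi c k = k}
  mul_mem' := by
    intro a b ha hb
    have ha' : X.pi a k = k := ha
    have hb' : X.pi b k = k := hb
    show X.pi (a * b) k = k
    rw [X.pi_mul, hb', ha']
  one_mem' := X.pi_one k
  inv_mem' := by
    intro a ha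
    have ha' : X.pi a k = k := ha
    show X.pi a⁻¹ k = k
    have h := X.pi_mul a⁻¹ a k
    rw [inv_mul_cancel, X.pi_one, ha'] at h
    exact h.symm

private theorem card_units {p : ℕ} [NeZero p] (hp : p.Prime) :
    Fintype.card (ZMod (p ^ 1))ˣ = p - 1 := by
  rw [ZMod.card_units_eq_totient, pow_one, Nat.totient_prime hp]

private theorem stab_index {I : Type} [Fintype I] [DecidableEq I] {p : ℕ} [NeZero p]
    (X : PD I p 1) (hO : OB X) (k : I) : (Stab X k).index = (Orb X k).card := by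
  have h1 := hO.card k
  have h2 := (Stab X k).card_mul_index
  rw [Nat.card_eq_fintype_card (α := (ZMod (p ^ 1))ˣ), card_units X.prime] at h2
  have h3 : Nat.card (Stab X k) = (Finset.univ.filter fun c => X.pi c k = k).card := by
    rw [← Fintype.card_coe, ← Nat.card_eq_fintype_card]
    apply Nat.card_congr
    refine Equiv.subtypeEquivRight ?_
    intro c
    rw [Finset.mem_filter]
    constructor
    · intro h
      exact ⟨Finset.mem_univ _, h⟩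
    · intro h
      exact h.2
  rw [h3] at h2
  have h4 : 0 < (Finset.univ.filter fun c => X.pi c k = k).card := by
    apply Finset.card_pos.mpr
    exact ⟨1, by rw [Finset.mem_filter]; exact ⟨Finset.mem_univ _, X.pi_one k⟩⟩
  have h5 : (Finset.univ.filter fun c => X.pi c k = k).card * (Stab X k).index =
      (Finset.univ.filter fun c => X.pi c k = k).card * (Orb X k).card := by
    rw [h2, ← h1, mul_comm]
  exact Nat.eq_of_mul_eq_mul_left h4 h5

/-- the summand of GPZ -/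
private noncomputable def TT {I : Type} [Fintype I] [DecidableEq I] {p : ℕ} [NeZero p]
    (X : PD I p 1) (a l : I) : ℝ :=
  ((p : ℝ) - 1) * ∑ c, ‖X.s a (X.pi c l)‖ ^ 2 - ‖∑ c, X.s a (X.pi c l)‖ ^ 2

private theorem key {I : Type} [Fintype I] [DecidableEq I] {p : ℕ} [NeZero p]
    (hMXX : StMXX) (hPRV : StPRV) (hCMM : StCMM)
    (X : PD I p 1) (hO : OB X) (hGA : GA X) (hn : ∀ i k, X.s i k * (X.t i * X.t k) =
      ∑ l, (X.N i (X.st k) l : ℂ) * (X.t l * X.y l)) (a l : I) (ha : X.t a = 1)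
    (hl : X.t l = 1) :
    ∃ F Q2 S : ℤ,
      ((Nat.gcd (Orb X a).card (Orb X l).card : ℕ) : ℝ) ^ 2 * TT X a l =
        (p : ℝ) * ((p : ℝ) - 1) ^ 2 *
          ((((Nat.gcd (Orb X a).card (Orb X l).card : ℕ) : ℤ) * Q2 - F ^ 2 : ℤ) : ℝ) ∧
      (((Nat.gcd (Orb X a).card (Orb X l).card : ℕ) : ℤ) * Q2 - F ^ 2 = 0 ∨
        2 ≤ ((Nat.gcd (Orb X a).card (Orb X l).card : ℕ) : ℤ) ∧
        ((Nat.gcd (Orb X a).card (Orb X l).card : ℕ) : ℤ) - 1 ≤
          ((Nat.gcd (Orb X a).card (Orb X l).card : ℕ) : ℤ) * Q2 - F ^ 2) ∧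
      ((Nat.gcd (Orb X a).card (Orb X l).card : ℕ) : ℤ) * S = ((p : ℤ) - 1) * F ∧
      ∑ c, X.s a (X.pi c l) = -(S : ℂ) := by
  obtain ⟨m, hm1, hm2⟩ := hMXX I p X hGA hn a l ha hl
  have hfact : Fact (p ^ 1).Prime := ⟨by rw [pow_one]; exact X.prime⟩
  obtain ⟨hP1, hP2⟩ := hPRV p X.prime m
  obtain ⟨F, Q2, hF, hQ, hV⟩ := hCMM (ZMod (p ^ 1))ˣ (Stab X a) (Stab X l) m
    (fun c hc x => hm2 c (Or.inl hc) x) (fun c hc x => hm2 c (Or.inr hc) x)
  rw [stab_index X hO a, stab_index X hO l] at hF hQ hV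
  rw [card_units X.prime] at hF hQ
  have hp1 : 1 ≤ p := X.prime.one_lt.le
  rw [Nat.cast_sub hp1, Nat.cast_one] at hF hQ
  set r : ℕ := Nat.gcd (Orb X a).card (Orb X l).card with hr
  refine ⟨F, Q2, ∑ x, m x, ?_, hV, hF, ?_⟩
  · have hT : TT X a l = (p : ℝ) * (((p : ℝ) - 1) * ∑ x, (m x : ℝ) ^ 2 -
        (∑ x, (m x : ℝ)) ^ 2) := by
      unfold TT
      have e1 : ∑ c, ‖X.s a (X.pi c l)‖ ^ 2 = ∑ c, ‖Fm p m c‖ ^ 2 :=
        Finset.sum_congr rfl (fun c _ => by rw [hm1 c])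
      have e2 : ∑ c, X.s a (X.pi c l) = ∑ c, Fm p m c :=
        Finset.sum_congr rfl (fun c _ => by rw [hm1 c])
      have e3 : ‖-∑ x, (m x : ℂ)‖ ^ 2 = (∑ x, (m x : ℝ)) ^ 2 := by
        have : (∑ x, (m x : ℂ)) = ((∑ x, (m x : ℝ) : ℝ) : ℂ) := by push_cast; rfl
        rw [norm_neg, this, Complex.norm_real, Real.norm_eq_abs, sq_abs]
      rw [e1, e2, hP1, hP2, e3]
      ring
    have hFR : (r : ℝ) * ∑ x, (m x : ℝ) = ((p : ℝ) - 1) * F := by exact_mod_cast hF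
    have hQR : (r : ℝ) * ∑ x, (m x : ℝ) ^ 2 = ((p : ℝ) - 1) * Q2 := by exact_mod_cast hQ
    rw [hT]
    push_cast
    have : (r : ℝ) ^ 2 * ((p : ℝ) * (((p : ℝ) - 1) * ∑ x, (m x : ℝ) ^ 2 -
        (∑ x, (m x : ℝ)) ^ 2)) = (p : ℝ) * (((p : ℝ) - 1) * r * ((r : ℝ) * ∑ x, (m x : ℝ) ^ 2) -
        ((r : ℝ) * ∑ x, (m x : ℝ)) ^ 2) := by ring
    rw [this, hFR, hQR]
    ring
  · have e2 : ∑ c, X.s a (X.pi c l) = ∑ c, Fm p m c :=
      Finset.sum_congr rfl (fun c _ => by rw [hm1 c])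
    rw [e2, hP2]
    push_cast
    rfl

private theorem mem_Orb' {I : Type} [Fintype I] [DecidableEq I] {p : ℕ} (X : PD I p 1) (k j : I) :
    j ∈ Orb X k ↔ ∃ c, X.pi c k = j := by
  classical
  unfold Orb
  rw [Finset.mem_filter]
  exact ⟨fun h => h.2, fun h => ⟨Finset.mem_univ _, h⟩⟩

private theorem TT_orb {I : Type} [Fintype I] [DecidableEq I] {p : ℕ} [NeZero p]
    (X : PD I p 1) (a k l : I) (h : l ∈ Orb X k) : TT X a l = TT X a k := by
  obtain ⟨c', rfl⟩ := (mem_Orb' X k l).mp h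
  unfold TT
  have e1 : ∀ (M : Type) [AddCommMonoid M] (f : I → M),
      ∑ c, f (X.pi c (X.pi c' k)) = ∑ c, f (X.pi c k) := by
    intro M _ f
    have : ∀ c, f (X.pi c (X.pi c' k)) = (fun c => f (X.pi c k)) (c * c') := by
      intro c
      show _ = f (X.pi (c * c') k)
      rw [X.pi_mul]
    rw [Finset.sum_congr rfl (fun c _ => this c)]
    exact Equiv.sum_comp (Equiv.mulRight c') (fun c => f (X.pi c k))
  rw [e1 ℝ (fun i => ‖X.s a i‖ ^ 2), e1 ℂ (fun i => X.s a i)]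

private theorem orb_sub {I : Type} [Fintype I] [DecidableEq I] {p : ℕ} [NeZero p]
    (X : PD I p 1) (hO : OB X) (k : I) (hk : k ∈ Ks X) : Orb X k ⊆ Ks X := by
  intro l hl
  unfold Ks at hk ⊢
  rw [Finset.mem_filter] at hk ⊢
  obtain ⟨-, h1, h2, h3⟩ := hk
  refine ⟨Finset.mem_univ _, ?_, hO.t k l hl h2, ?_⟩
  · rw [hO.y k l hl]; exact h1
  · intro h
    rw [h] at hl
    exact h3 (hO.o k hl)

private theorem arith {g r n V : ℕ} (hg : 2 ≤ g) (hrg : r ∣ g) (hrn : r ∣ n) (hn : 0 < n)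
    (hr : 2 ≤ r) (hV : r - 1 ≤ V) (h : g * (n * V) = (g - 1) * r ^ 2) :
    r = g ∧ n = g ∧ V = g - 1 := by
  obtain ⟨q, rfl⟩ := hrn
  have hr0 : 0 < r := by omega
  have h1 : r * (g * (q * V)) = r * ((g - 1) * r) := by
    calc r * (g * (q * V)) = g * (r * q * V) := by ring
      _ = (g - 1) * r ^ 2 := h
      _ = r * ((g - 1) * r) := by ring
  have h2 : g * (q * V) = (g - 1) * r := Nat.eq_of_mul_eq_mul_left hr0 h1
  have hcop : Nat.Coprime g (g - 1) := by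
    have : Nat.Coprime (g - 1 + 1) (g - 1) := by simp
    rwa [Nat.sub_add_cancel (by omega : 1 ≤ g)] at this
  have h3 : g ∣ r := hcop.dvd_of_dvd_mul_left (Dvd.intro _ h2)
  have h4 : r = g := Nat.dvd_antisymm hrg h3
  subst h4
  have h5 : q * V = r - 1 := by
    apply Nat.eq_of_mul_eq_mul_left hr0
    rw [h2, mul_comm]
  have hq : 0 < q := by
    rcases Nat.eq_zero_or_pos q with h | h
    · rw [h] at hn
      omega
    · exact h
  have h6 : q ≤ 1 := by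
    by_contra hq2
    have : 2 * V ≤ q * V := Nat.mul_le_mul_right _ (by omega)
    omega
  have h7 : q = 1 := by omega
  subst h7
  refine ⟨rfl, by ring, by omega⟩

/-- the real form of the data of `key` on the whole of `Ks` -/
private theorem main1 {I : Type} [Fintype I] [DecidableEq I] {p : ℕ} [NeZero p]
    (X : PD I p 1) (hO : OB X) (a : I) (g : ℕ) (hg : 2 ≤ g) (hag : (Orb X a).card = g)
    (R : I → ℕ) (hR : ∀ l, R l = Nat.gcd g (Orb X l).card)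
    (hkey : ∀ l ∈ Ks X, ∃ V : ℕ, ((R l : ℕ) : ℝ) ^ 2 * TT X a l =
      (p : ℝ) * ((p : ℝ) - 1) ^ 2 * (V : ℝ) ∧ (V = 0 ∨ 2 ≤ R l ∧ R l - 1 ≤ V))
    (hsum : ∑ l ∈ Ks X, TT X a l = (p : ℝ) * ((p : ℝ) - 1) ^ 2 * (1 - 1 / (g : ℝ))) :
    ∃ w ∈ Ks X, (Orb X w).card = g ∧ R w = g ∧
      ((g : ℕ) : ℝ) ^ 2 * TT X a w = (p : ℝ) * ((p : ℝ) - 1) ^ 2 * ((g - 1 : ℕ) : ℝ) := by
  classical
  have hp2 : 2 ≤ p := X.prime.two_le
  have hpR : (2 : ℝ) ≤ (p : ℝ) := by exact_mod_cast hp2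
  have hK : (0 : ℝ) < (p : ℝ) * ((p : ℝ) - 1) ^ 2 := by
    have : (0 : ℝ) < (p : ℝ) - 1 := by linarith
    positivity
  have hgR : (2 : ℝ) ≤ (g : ℝ) := by exact_mod_cast hg
  have hRpos : ∀ l, 0 < R l := by
    intro l
    rw [hR l]
    exact Nat.gcd_pos_of_pos_left _ (by omega)
  -- v l
  have hnn : ∀ l ∈ Ks X, 0 ≤ TT X a l := by
    intro l hl
    obtain ⟨V, h1, -⟩ := hkey l hl
    have h2 : (0 : ℝ) < ((R l : ℕ) : ℝ) ^ 2 := by
      have : (0 : ℝ) < ((R l : ℕ) : ℝ) := by exact_mod_cast hRpos l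
      positivity
    have h3 : (0 : ℝ) ≤ ((R l : ℕ) : ℝ) ^ 2 * TT X a l := by
      rw [h1]; positivity
    exact nonneg_of_mul_nonneg_right h3 h2
  -- orbit contribution
  have horb : ∀ k ∈ Ks X, ∑ l ∈ Orb X k, TT X a l = ((Orb X k).card : ℝ) * TT X a k := by
    intro k hk
    rw [Finset.sum_congr rfl (fun l hl => TT_orb X a k l hl), Finset.sum_const, nsmul_eq_mul]
  have hcpos : ∀ k, 0 < (Orb X k).card := fun k => Finset.card_pos.mpr ⟨k, hO.self k⟩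
  have hhalf : ∀ k ∈ Ks X, TT X a k ≠ 0 →
      (p : ℝ) * ((p : ℝ) - 1) ^ 2 * (1 / 2) ≤ ((Orb X k).card : ℝ) * TT X a k := by
    intro k hk hne
    obtain ⟨V, h1, h2⟩ := hkey k hk
    have hR0 : (0 : ℝ) < ((R k : ℕ) : ℝ) := by exact_mod_cast hRpos k
    have hV0 : V ≠ 0 := by
      intro h
      rw [h, Nat.cast_zero, mul_zero] at h1
      rcases mul_eq_zero.mp h1 with h | h
      · exact (pow_ne_zero 2 hR0.ne') h
      · exact hne h
    rcases h2 with h2 | ⟨h2, h3⟩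
    · exact absurd h2 hV0
    have hRd : R k ∣ (Orb X k).card := by rw [hR k]; exact Nat.gcd_dvd_right _ _
    have hle : R k ≤ (Orb X k).card := Nat.le_of_dvd (hcpos k) hRd
    have hleR : ((R k : ℕ) : ℝ) ≤ ((Orb X k).card : ℝ) := by exact_mod_cast hle
    have h2R : (2 : ℝ) ≤ ((R k : ℕ) : ℝ) := by exact_mod_cast h2
    have h3R : ((R k : ℕ) : ℝ) - 1 ≤ (V : ℝ) := by
      have : R k ≤ V + 1 := by omega
      have h' : ((R k : ℕ) : ℝ) ≤ (V : ℝ) + 1 := by exact_mod_cast this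
      linarith
    -- multiply by R^2
    have h4 : ((R k : ℕ) : ℝ) ^ 2 * (((Orb X k).card : ℝ) * TT X a k) =
        (p : ℝ) * ((p : ℝ) - 1) ^ 2 * (((Orb X k).card : ℝ) * V) := by
      calc ((R k : ℕ) : ℝ) ^ 2 * (((Orb X k).card : ℝ) * TT X a k)
          = ((Orb X k).card : ℝ) * (((R k : ℕ) : ℝ) ^ 2 * TT X a k) := by ring
        _ = _ := by rw [h1]; ring
    have h5 : ((R k : ℕ) : ℝ) ^ 2 * (1 / 2) ≤ ((Orb X k).card : ℝ) * V := by
      have e1 : ((R k : ℕ) : ℝ) * (((R k : ℕ) : ℝ) - 1) ≤ ((Orb X k).card : ℝ) * V :=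
        mul_le_mul hleR h3R (by linarith) (by positivity)
      nlinarith
    have h6 : ((R k : ℕ) : ℝ) ^ 2 * ((p : ℝ) * ((p : ℝ) - 1) ^ 2 * (1 / 2)) ≤
        ((R k : ℕ) : ℝ) ^ 2 * (((Orb X k).card : ℝ) * TT X a k) := by
      rw [h4]
      calc ((R k : ℕ) : ℝ) ^ 2 * ((p : ℝ) * ((p : ℝ) - 1) ^ 2 * (1 / 2))
          = (p : ℝ) * ((p : ℝ) - 1) ^ 2 * (((R k : ℕ) : ℝ) ^ 2 * (1 / 2)) := by ring
        _ ≤ _ := mul_le_mul_of_nonneg_left h5 hK.le
    exact le_of_mul_le_mul_left h6 (by positivity)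
  -- existence of l0
  have hsub : ∀ k ∈ Ks X, Orb X k ⊆ Ks X := fun k hk => orb_sub X hO k hk
  have hg1 : 1 / (g : ℝ) ≤ 1 / 2 := one_div_le_one_div_of_le (by norm_num) hgR
  have hg2 : 0 < 1 / (g : ℝ) := by positivity
  have hex : ∃ l ∈ Ks X, TT X a l ≠ 0 := by
    apply Finset.exists_ne_zero_of_sum_ne_zero
    rw [hsum]
    have : 0 < (p : ℝ) * ((p : ℝ) - 1) ^ 2 * (1 - 1 / (g : ℝ)) :=
      mul_pos hK (by linarith)
    exact this.ne'
  obtain ⟨w, hw, hwne⟩ := hex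
  have hoth : ∀ l ∈ Ks X, l ∉ Orb X w → TT X a l = 0 := by
    intro l hl hlw
    by_contra hne
    have hdis : Disjoint (Orb X w) (Orb X l) := by
      rw [Finset.disjoint_left]
      intro j hj hj'
      have e1 := hO.eq w j hj
      have e2 := hO.eq l j hj'
      apply hlw
      rw [← e1, e2]
      exact hO.self l
    have h1 : ∑ k ∈ Orb X w ∪ Orb X l, TT X a k ≤ ∑ k ∈ Ks X, TT X a k :=
      Finset.sum_le_sum_of_subset_of_nonneg (Finset.union_subset (hsub w hw) (hsub l hl))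
        (fun k hk _ => hnn k hk)
    rw [Finset.sum_union hdis, horb w hw, horb l hl, hsum] at h1
    have h2 := hhalf w hw hwne
    have h3 := hhalf l hl hne
    have h4 : (p : ℝ) * ((p : ℝ) - 1) ^ 2 * 1 ≤
        (p : ℝ) * ((p : ℝ) - 1) ^ 2 * (1 - 1 / (g : ℝ)) := by
      linarith
    have h5 := le_of_mul_le_mul_left h4 hK
    linarith
  have htot : ((Orb X w).card : ℝ) * TT X a w =
      (p : ℝ) * ((p : ℝ) - 1) ^ 2 * (1 - 1 / (g : ℝ)) := by
    rw [← hsum, ← horb w hw]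
    apply Finset.sum_subset (hsub w hw)
    intro l hl hlw
    exact hoth l hl hlw
  obtain ⟨V, h1, h2⟩ := hkey w hw
  have hR0 : (0 : ℝ) < ((R w : ℕ) : ℝ) := by exact_mod_cast hRpos w
  have hV0 : V ≠ 0 := by
    intro h
    rw [h, Nat.cast_zero, mul_zero] at h1
    rcases mul_eq_zero.mp h1 with h | h
    · exact (pow_ne_zero 2 hR0.ne') h
    · exact hwne h
  rcases h2 with h2 | ⟨h2, h3⟩
  · exact absurd h2 hV0
  have hRd : R w ∣ (Orb X w).card := by rw [hR w]; exact Nat.gcd_dvd_right _ _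
  have hRg : R w ∣ g := by rw [hR w]; exact Nat.gcd_dvd_left _ _
  have heq : ((g : ℝ)) * (((Orb X w).card : ℝ) * V) = ((g : ℝ) - 1) * ((R w : ℕ) : ℝ) ^ 2 := by
    have e1 : (p : ℝ) * ((p : ℝ) - 1) ^ 2 * ((g : ℝ) * (((Orb X w).card : ℝ) * V)) =
        (p : ℝ) * ((p : ℝ) - 1) ^ 2 * (((g : ℝ) - 1) * ((R w : ℕ) : ℝ) ^ 2) := by
      calc (p : ℝ) * ((p : ℝ) - 1) ^ 2 * ((g : ℝ) * (((Orb X w).card : ℝ) * V))
          = (g : ℝ) * ((Orb X w).card : ℝ) * ((p : ℝ) * ((p : ℝ) - 1) ^ 2 * V) := by ring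
        _ = (g : ℝ) * ((R w : ℕ) : ℝ) ^ 2 * (((Orb X w).card : ℝ) * TT X a w) := by
            rw [← h1]; ring
        _ = _ := by
            rw [htot]
            have : (g : ℝ) ≠ 0 := by positivity
            field_simp
    exact mul_left_cancel₀ hK.ne' e1
  have heqN : g * ((Orb X w).card * V) = (g - 1) * R w ^ 2 := by
    have : ((g - 1 : ℕ) : ℝ) = (g : ℝ) - 1 := by
      rw [Nat.cast_sub (by omega : 1 ≤ g), Nat.cast_one]
    have e : ((g * ((Orb X w).card * V) : ℕ) : ℝ) = (((g - 1) * R w ^ 2 : ℕ) : ℝ) := by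
      push_cast [this]
      rw [heq]
    exact_mod_cast e
  obtain ⟨k1, k2, k3⟩ := arith hg hRg hRd (hcpos w) h2 h3 heqN
  refine ⟨w, hw, k2, k1, ?_⟩
  rw [k1, k3] at h1
  exact h1

theorem hGPP : StGPP := by
  intro hGPZ hMXX hPRV hCMM hTS2 hORB hE4 hE2 I _ _ p _ X Q N a hG hgX2 hGA hn
  have hO : OB X := hORB I p X
  have haK : a ∈ Ks X := hG.aK
  have hmemK : ∀ l, l ∈ Ks X → X.y l ≠ 0 ∧ X.t l = 1 ∧ l ≠ X.o := by
    intro l hl
    unfold Ks at hl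
    rw [Finset.mem_filter] at hl
    exact hl.2
  obtain ⟨g, hgdef⟩ : ∃ g : ℕ, (Orb X a).card = g := ⟨_, rfl⟩
  have hgg : (g : ℤ) = gX X := by rw [← hgdef]; exact hG.aO
  have hg2 : 2 ≤ g := by
    have : (2 : ℤ) ≤ (g : ℤ) := by rw [hgg]; exact hgX2
    exact_mod_cast this
  have hat : X.t a = 1 := (hmemK a haK).2.1
  have hp2 : 2 ≤ p := X.prime.two_le
  have hpR : (2 : ℝ) ≤ (p : ℝ) := by exact_mod_cast hp2
  have hK : (0 : ℝ) < (p : ℝ) * ((p : ℝ) - 1) ^ 2 := by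
    have : (0 : ℝ) < (p : ℝ) - 1 := by linarith
    positivity
  have hsum : ∑ l ∈ Ks X, TT X a l = (p : ℝ) * ((p : ℝ) - 1) ^ 2 * (1 - 1 / (g : ℝ)) := by
    have := hGPZ hE4 hE2 hORB I p X Q hG.blk a haK
    rw [hgdef] at this
    exact this
  obtain ⟨w, hw, hwc, hwr, hwT⟩ := main1 X hO a g hg2 hgdef
    (fun l => Nat.gcd g (Orb X l).card) (fun l => rfl)
    (by
      intro l hl
      obtain ⟨F, Q2, S, k1, k2, -, -⟩ := key hMXX hPRV hCMM X hO hGA hn a l hat (hmemK l hl).2.1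
      rw [hgdef] at k1 k2
      have hrp : 0 < Nat.gcd g (Orb X l).card := Nat.gcd_pos_of_pos_left _ (by omega)
      have hnn : 0 ≤ ((Nat.gcd g (Orb X l).card : ℕ) : ℤ) * Q2 - F ^ 2 := by
        rcases k2 with k2 | ⟨k2, k3⟩
        · rw [k2]
        · linarith
      obtain ⟨V, hV⟩ := Int.eq_ofNat_of_zero_le hnn
      refine ⟨V, ?_, ?_⟩
      · rw [hV] at k1
        rw [k1]
        norm_cast
      · rcases k2 with k2 | ⟨k2, k3⟩
        · left
          rw [hV] at k2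
          exact_mod_cast k2
        · right
          rw [hV] at k3
          show 2 ≤ Nat.gcd g (Orb X l).card ∧ Nat.gcd g (Orb X l).card - 1 ≤ V
          omega)
    hsum
  refine ⟨w, ?_, by rw [hwc]; exact hgg⟩
  unfold Kp
  rw [Finset.mem_filter]
  refine ⟨hw, ?_⟩
  intro hwa
  -- contradiction
  have hTa : TT X a w = TT X a a := TT_orb X a a w hwa
  obtain ⟨F, Q2, S, k1, -, k3, k4⟩ := key hMXX hPRV hCMM X hO hGA hn a a hat hat
  rw [hgdef, Nat.gcd_self] at k1 k3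
  rw [hTa] at hwT
  have hV : (g : ℤ) * Q2 - F ^ 2 = (g : ℤ) - 1 := by
    have e1 : (p : ℝ) * ((p : ℝ) - 1) ^ 2 * (((g : ℤ) * Q2 - F ^ 2 : ℤ) : ℝ) =
        (p : ℝ) * ((p : ℝ) - 1) ^ 2 * ((g - 1 : ℕ) : ℝ) := by rw [← k1, ← hwT]
    have e2 := mul_left_cancel₀ hK.ne' e1
    have e3 : ((g - 1 : ℕ) : ℝ) = (((g : ℤ) - 1 : ℤ) : ℝ) := by
      rw [Nat.cast_sub (by omega : 1 ≤ g)]
      push_cast
      ring
    rw [e3] at e2
    exact_mod_cast e2
  -- TS2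
  have hT1 := (hTS2 hORB I p X Q hG.blk a haK).1 a
  have hsplit : ∑ l, X.s a l * ((gX X : ℂ) * (if l ∈ Orb X a then 1 else 0) +
      ((Orb X a).card : ℂ) * X.y a * (if l = X.o then 1 else 0)) =
      (gX X : ℂ) * ∑ l ∈ Orb X a, X.s a l + ((Orb X a).card : ℂ) * X.y a * X.s a X.o := by
    have e1 : ∀ l, X.s a l * ((gX X : ℂ) * (if l ∈ Orb X a then 1 else 0) +
        ((Orb X a).card : ℂ) * X.y a * (if l = X.o then 1 else 0)) =
        (gX X : ℂ) * (if l ∈ Orb X a then X.s a l else 0) +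
        (if l = X.o then ((Orb X a).card : ℂ) * X.y a * X.s a l else 0) := by
      intro l
      split_ifs <;> ring
    rw [Finset.sum_congr rfl (fun l _ => e1 l), Finset.sum_add_distrib, ← Finset.mul_sum,
      Finset.sum_ite_mem, Finset.univ_inter, Finset.sum_ite_eq' Finset.univ X.o,
      if_pos (Finset.mem_univ _)]
  rw [hsplit, if_pos (hO.self a), if_neg (hmemK a haK).2.2, X.s_o] at hT1
  have hgC : ((Orb X a).card : ℂ) = (gX X : ℂ) := by
    have := hG.aO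
    exact_mod_cast this
  have hgX0 : (gX X : ℂ) ≠ 0 := by
    have : gX X ≠ 0 := by omega
    exact_mod_cast this
  have hay : (X.y a : ℂ) * (X.y a : ℂ) = 1 := by
    have := hG.ay
    have h' : ((X.y a ^ 2 : ℤ) : ℂ) = 1 := by rw [this]; norm_num
    push_cast at h'
    rw [← h']
    ring
  have hsO : ∑ l ∈ Orb X a, X.s a l = (p : ℂ) - 1 := by
    apply mul_left_cancel₀ hgX0
    rw [hgC] at hT1
    have : (gX X : ℂ) * ∑ l ∈ Orb X a, X.s a l + (gX X : ℂ) * ((X.y a : ℂ) * (X.y a : ℂ)) =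
        (p : ℂ) * (gX X : ℂ) := by
      rw [mul_one, mul_zero, add_zero] at hT1
      rw [← hT1]
      ring
    rw [hay] at this
    linear_combination this
  have hsum2 := hO.sum a (fun i => X.s a i)
  rw [hsO, k4, hgdef] at hsum2
  have hS : -((g : ℤ) * S) = ((p : ℤ) - 1) * ((p : ℤ) - 1) := by
    have : (g : ℂ) * -(S : ℂ) = ((p : ℂ) - 1) * ((p : ℂ) - 1) := hsum2
    have h' : ((-((g : ℤ) * S) : ℤ) : ℂ) = ((((p : ℤ) - 1) * ((p : ℤ) - 1) : ℤ) : ℂ) := by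
      push_cast
      rw [← this]
      ring
    exact_mod_cast h'
  have hp1 : ((p : ℤ) - 1) ≠ 0 := by
    have : (2 : ℤ) ≤ (p : ℤ) := by exact_mod_cast hp2
    omega
  have hF : F = -((p : ℤ) - 1) := by
    apply mul_left_cancel₀ hp1
    rw [← k3]
    linear_combination -hS
  have hF2 : F = -((N : ℤ) * (g : ℤ)) := by
    rw [hF, hG.pN, hgg]
  have hdiv : (g : ℤ) ∣ 1 := by
    have : (1 : ℤ) = (g : ℤ) - ((g : ℤ) * Q2 - F ^ 2) := by rw [hV]; ring
    rw [this, hF2]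
    exact ⟨1 - Q2 + (N : ℤ) ^ 2 * g, by ring⟩
  have : (g : ℤ) ≤ 1 := Int.le_of_dvd one_pos hdiv
  have hg2' : (2 : ℤ) ≤ (g : ℤ) := by exact_mod_cast hg2
  omega

end Pool.Agent.Helper4.PQ1.GPP
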