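import Pool.Agent.Helper4.PQ1.Defs

/-! # Project OC, module IB: the row bound -/

set_option autoImplicit false

namespace Pool.Agent.Helper4.PQ1.IB

open Pool.Agent.Helper4.PQ0 Pool.Agent.Helper4.PQ1
open Pool.Agent.Helper94.YF hiding StORB
open Pool.Agent.Helper89.OS hiding PD Cx Blk B0 Orb StXA StXB StXC StXE StCGR StISO StBLK StAMG StHEC StSTL StMZZ StDRE StTSU
open Pool.Agent.Helper89.OC hiding Ks gX OB Lk StORB StTS2 StLKD StTAN StE2 StE4 StE3 StIB StRB StMXX StGPZ StGPP StKSS StLKN StGA2 GA Gam Kp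

open Matrix ComplexConjugate Pool.Agent.Helper94.YG

variable {I : Type} [Fintype I] [DecidableEq I] {p : ℕ}

theorem ib_s_o (X : PD I p 1) (k : I) : X.s X.o k = (X.y k : ℂ) := by
  rw [X.s_symm, X.s_o]

open Classical in
/-- (iii) of the proof. -/
theorem ib_iii (X : PD I p 1) (ζ : ℂ) (hζ : ζ ^ p = 1) (hζ1 : ζ ≠ 1) (k : I) (hk : X.t k = 1) :
    (∑ j, if X.t j = ζ then (X.y j : ℂ) * X.s j k else 0) =
      (if k = X.o then (p : ℂ) else 0) - X.y k := by
  have hp : p.Prime := X.prime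
  have : Fact (p ^ 1).Prime := ⟨by rw [pow_one]; exact hp⟩
  have : NeZero (p ^ 1) := ⟨(Fact.out : (p ^ 1).Prime).ne_zero⟩
  have hp0 : (p : ℂ) ≠ 0 := by exact_mod_cast hp.ne_zero
  have hz0 : ζ ≠ 0 := by
    rintro rfl
    rw [zero_pow hp.ne_zero] at hζ
    exact zero_ne_one hζ
  have hroot : ∀ j, ∑ w : ZMod (p ^ 1), (ζ⁻¹ * X.t j) ^ w.val =
      if X.t j = ζ then (p : ℂ) else 0 := by
    intro j
    have e : (ζ⁻¹ * X.t j) ^ (p ^ 1) = 1 := by
      rw [mul_pow, X.t_pow, inv_pow, pow_one, hζ]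
      simp
    rw [Helper8.OS.sum_root (p ^ 1) _ e, pow_one]
    have h : ζ⁻¹ * X.t j = 1 ↔ X.t j = ζ := by
      rw [inv_mul_eq_one₀ hz0]
      exact eq_comm
    simp only [h]
  have h1 : (p : ℂ) * (∑ j, if X.t j = ζ then (X.y j : ℂ) * X.s j k else 0) =
      ∑ w : ZMod (p ^ 1), (ζ⁻¹) ^ w.val * ∑ j, X.t j ^ w.val * (X.s X.o j * X.s j k) := by
    have e : ∀ w : ZMod (p ^ 1), (ζ⁻¹) ^ w.val * ∑ j, X.t j ^ w.val * (X.s X.o j * X.s j k) =
        ∑ j, (ζ⁻¹ * X.t j) ^ w.val * ((X.y j : ℂ) * X.s j k) := by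
      intro w
      rw [Finset.mul_sum]
      refine Finset.sum_congr rfl fun j _ => ?_
      rw [ib_s_o, mul_pow]
      ring
    rw [Finset.sum_congr rfl fun w _ => e w, Finset.sum_comm, Finset.mul_sum]
    refine Finset.sum_congr rfl fun j _ => ?_
    rw [← Finset.sum_mul, hroot j]
    split_ifs <;> ring
  have hpo : ∀ c i, X.pi c i = X.o ↔ i = X.o := by
    intro c i
    constructor
    · intro h
      have := congrArg (X.pi c⁻¹) h
      rwa [← X.pi_mul, inv_mul_cancel, X.pi_one, X.pi_o] at this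
    · rintro rfl
      exact X.pi_o c
  have h0 : ∑ j, X.t j ^ (0 : ZMod (p ^ 1)).val * (X.s X.o j * X.s j k) =
      if k = X.o then (p : ℂ) ^ 2 else 0 := by
    have e : ∀ j, X.t j ^ (0 : ZMod (p ^ 1)).val * (X.s X.o j * X.s j k) =
        X.s X.o j * X.s j k := by
      intro j
      rw [ZMod.val_zero, pow_zero, one_mul]
    rw [Finset.sum_congr rfl fun j _ => e j, X.weil0]
    have h : (X.o = X.pi (-1) k) ↔ k = X.o := by
      rw [eq_comm, hpo]
    simp only [h]
  have hu : ∀ w : (ZMod (p ^ 1))ˣ,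
      ∑ j, X.t j ^ (w : ZMod (p ^ 1)).val * (X.s X.o j * X.s j k) = (p : ℂ) * X.y k := by
    intro w
    rw [X.weil w X.o k, X.t_o, hk, one_pow, one_mul, mul_one, ib_s_o, X.pi_y]
  have hsum : ∑ w : (ZMod (p ^ 1))ˣ, (ζ⁻¹) ^ (w : ZMod (p ^ 1)).val = -1 := by
    have e : (ζ⁻¹ : ℂ) ^ (p ^ 1) = 1 := by
      rw [inv_pow, pow_one, hζ, inv_one]
    have h := Helper8.OS.sum_root (p ^ 1) _ e
    have hz1 : (ζ⁻¹ : ℂ) ≠ 1 := by
      intro h
      exact hζ1 (inv_eq_one.1 h)
    rw [if_neg hz1, Helper8.OS.sum_split, ZMod.val_zero, pow_zero] at h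
    linear_combination h
  rw [Helper8.OS.sum_split, h0, ZMod.val_zero, pow_zero, one_mul] at h1
  simp only [hu] at h1
  rw [← Finset.sum_mul, hsum] at h1
  apply mul_left_cancel₀ hp0
  rw [h1]
  split_ifs <;> ring

open Classical in
theorem ib_main (hE3 : StE3) (hE2 : StE2) (hE4 : StE4) (hORB : Pool.Agent.Helper4.PQ0.StORB) [NeZero p]
    (X : PD I p 1) (b : I) (hxn : ¬ (p : ℤ) ∣ X.y X.o) (hb : X.t b ≠ 1) :
    (∑ k, if X.t k = 1 then ‖X.s b k‖ ^ 2 else 0) ≤
      2 * (p : ℝ) - ((p : ℝ) - 1) * (X.y b : ℝ) ^ 2 / (gX X : ℝ) := by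
  obtain ⟨hM1, hM2, -, -, hM5, -, -⟩ := Pool.Agent.Helper4.PQ0.MZZ.hMZZ I p X hxn
  have hp : p.Prime := X.prime
  have hp0 : (0 : ℝ) < p := by exact_mod_cast hp.pos
  have hbo : b ≠ X.o := by
    rintro rfl
    exact hb X.t_o
  have hζ : X.t b ^ p = 1 := by
    have := X.t_pow b
    rwa [pow_one] at this
  set ζ : ℂ := X.t b with hζdef
  have hgZ : (gX X : ℤ) = (p : ℤ) - X.y X.o := rfl
  set g : ℝ := (gX X : ℝ) with hg
  have hgx : g = (p : ℝ) - X.y X.o := by
    rw [hg, hgZ]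
    push_cast
    ring
  have hg2 : (1 : ℝ) ≤ g := by
    rw [hgx]
    have : ((1 : ℤ) : ℝ) ≤ (((p : ℤ) - X.y X.o : ℤ) : ℝ) := by exact_mod_cast hM5
    push_cast at this
    exact this
  have hg0 : (0 : ℝ) < g := by linarith
  set yb : ℝ := (X.y b : ℝ) with hyb
  set al : ℝ := yb / g with hal
  set A : ℝ := ∑ k, if X.t k = 1 then ‖X.s b k‖ ^ 2 else 0 with hA
  -- the vectors
  set u : I → ℂ := fun k => if X.t k = 1 then conj (X.s b k) else 0 with hu
  set w : I → ℝ := fun k => (if k = X.o then (p : ℝ) else 0) -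
    (if X.t k = 1 then (X.y k : ℝ) else 0) with hw
  have hw0 : ∀ k, X.t k ≠ 1 → w k = 0 := by
    intro k hk
    have hko : k ≠ X.o := by
      rintro rfl
      exact hk X.t_o
    simp only [hw]
    rw [if_neg hk, if_neg hko, sub_zero]
  -- (i)
  have hsw : ∑ k, X.s b k * (w k : ℂ) = ((p : ℂ) + 1) * X.y b := by
    have hpo : ∀ c i, X.pi c i = X.o ↔ i = X.o := by
      intro c i
      constructor
      · intro h
        have := congrArg (X.pi c⁻¹) h
        rwa [← X.pi_mul, inv_mul_cancel, X.pi_one, X.pi_o] at this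
      · rintro rfl
        exact X.pi_o c
    have h := Pool.Agent.Helper4.PQ0.HEC.hHEC I p X (fun i => if i = X.o then 1 else 0)
      (by intro c i; simp only [hpo])
      (by
        intro i hi
        have : i = X.o := by
          by_contra h
          exact hi (if_neg h)
        rw [this, X.t_o]) b
    have e1 : ∀ k, ∑ i, X.s k i * (if i = X.o then (1 : ℂ) else 0) = X.y k := by
      intro k
      simp [X.s_o]
    simp only [e1] at h
    rw [if_neg hbo, if_neg hb] at h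
    have e2 : ∑ k, X.s b k * (w k : ℂ) = X.s b X.o * (p : ℂ) -
        ∑ k, (if X.t k = 1 then X.s b k * (X.y k : ℂ) else 0) := by
      have e3 : ∀ k, X.s b k * (w k : ℂ) = (if k = X.o then X.s b k * (p : ℂ) else 0) -
          (if X.t k = 1 then X.s b k * (X.y k : ℂ) else 0) := by
        intro k
        simp only [hw]
        split_ifs <;> push_cast <;> ring
      rw [Finset.sum_congr rfl fun k _ => e3 k, Finset.sum_sub_distrib]
      congr 1
      simp
    rw [e2, h, X.s_o]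
    ring
  -- (ii)
  have hww : ∑ k, w k ^ 2 = ((p : ℝ) + 1) * g := by
    have hM2' : (∑ k, if X.t k = 1 then (X.y k : ℝ) ^ 2 else 0) =
        (p : ℝ) + ((p : ℝ) - 1) * X.y X.o := by
      have := congrArg (fun z : ℤ => (z : ℝ)) hM2
      push_cast at this
      exact this
    have e3 : ∀ k, w k ^ 2 = (if k = X.o then (p : ℝ) ^ 2 - 2 * p * X.y k else 0) +
        (if X.t k = 1 then (X.y k : ℝ) ^ 2 else 0) := by
      intro k
      simp only [hw]
      by_cases hk : k = X.o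
      · rw [if_pos hk, if_pos hk, if_pos (by rw [hk, X.t_o]), if_pos (by rw [hk, X.t_o])]
        ring
      · rw [if_neg hk, if_neg hk]
        split_ifs <;> ring
    rw [Finset.sum_congr rfl fun k _ => e3 k, Finset.sum_add_distrib, hM2', hgx]
    simp
    ring
  -- the vector `u'`
  set u' : I → ℂ := fun k => u k - (al : ℂ) * (w k : ℂ) with hu'
  have hu0 : ∀ k, X.t k ≠ 1 → u' k = 0 := by
    intro k hk
    simp only [hu', hu]
    rw [if_neg hk, hw0 k hk]
    simp
  -- `<w, u> = (p + 1) y b`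
  have hwu : ∑ k, u k * (w k : ℂ) = ((p : ℂ) + 1) * X.y b := by
    have h := congrArg conj hsw
    rw [map_sum] at h
    have e : ∀ k, conj (X.s b k * (w k : ℂ)) = u k * (w k : ℂ) := by
      intro k
      rw [map_mul, Complex.conj_ofReal]
      simp only [hu]
      by_cases hk : X.t k = 1
      · rw [if_pos hk]
      · rw [if_neg hk, hw0 k hk]
        simp
    rw [Finset.sum_congr rfl fun k _ => e k] at h
    rw [h]
    simp
  -- `(s u) b = A`
  have hsu : ∑ k, X.s b k * u k = (A : ℂ) := by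
    rw [hA]
    push_cast
    refine Finset.sum_congr rfl fun k _ => ?_
    simp only [hu]
    split_ifs
    · rw [Complex.mul_conj, Complex.normSq_eq_norm_sq]
    · simp
  have hnu : ∑ k, ‖u k‖ ^ 2 = A := by
    rw [hA]
    refine Finset.sum_congr rfl fun k _ => ?_
    simp only [hu]
    split_ifs
    · rw [RCLike.norm_conj]
    · simp
  set R : ℝ := A - ((p : ℝ) + 1) * yb ^ 2 / g with hR
  have hybC : (X.y b : ℂ) = (yb : ℂ) := by
    rw [hyb]
    push_cast
    rfl
  have hRu : ∑ k, ‖u' k‖ ^ 2 = R := by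
    have e : ∀ k, ‖u' k‖ ^ 2 = ‖u k‖ ^ 2 - 2 * al * (u k * (w k : ℂ)).re + al ^ 2 * w k ^ 2 := by
      intro k
      simp only [hu']
      rw [← Complex.normSq_eq_norm_sq, ← Complex.normSq_eq_norm_sq, Complex.normSq_apply,
        Complex.normSq_apply]
      simp
      ring
    have hre : ∑ k, (u k * (w k : ℂ)).re = ((p : ℝ) + 1) * yb := by
      have h := congrArg Complex.re hwu
      rw [Complex.re_sum] at h
      rw [h, hybC]
      simp
    rw [Finset.sum_congr rfl fun k _ => e k, Finset.sum_add_distrib, Finset.sum_sub_distrib,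
      ← Finset.mul_sum, ← Finset.mul_sum, hnu, hre, hww, hR, hal]
    field_simp
    ring
  have hsub : ∑ k, X.s b k * u' k = (R : ℂ) := by
    have e : ∀ k, X.s b k * u' k = X.s b k * u k - (al : ℂ) * (X.s b k * (w k : ℂ)) := by
      intro k
      simp only [hu']
      ring
    rw [Finset.sum_congr rfl fun k _ => e k, Finset.sum_sub_distrib, ← Finset.mul_sum, hsu, hsw,
      hybC, hR, hal]
    push_cast
    ring
  -- `∑ u' w = 0`
  have huw : ∑ k, u' k * (w k : ℂ) = 0 := by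
    have e : ∀ k, u' k * (w k : ℂ) = u k * (w k : ℂ) - (al : ℂ) * ((w k ^ 2 : ℝ) : ℂ) := by
      intro k
      simp only [hu']
      push_cast
      ring
    rw [Finset.sum_congr rfl fun k _ => e k, Finset.sum_sub_distrib, ← Finset.mul_sum, hwu,
      ← Complex.ofReal_sum, hww, hybC, hal]
    have hgC : (g : ℂ) ≠ 0 := by exact_mod_cast hg0.ne'
    push_cast
    field_simp
    ring
  -- E3
  have h3 := hE3 hE2 hE4 hORB I p X u' (by
    intro i hi
    by_contra h
    exact hi (hu0 i h)) ζ hζ hb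
  rw [hRu] at h3
  set F : I → ℂ := fun j => ∑ k, X.s j k * u' k with hF
  set T : Finset I := Finset.univ.filter fun j => X.t j = ζ with hT
  have h3' : ∑ j ∈ T, ‖F j‖ ^ 2 ≤ 2 * (p : ℝ) * R := by
    rw [hT, Finset.sum_filter]
    exact h3
  have hbT : b ∈ T := by
    rw [hT, Finset.mem_filter]
    exact ⟨Finset.mem_univ _, rfl⟩
  have hyy : ∑ j ∈ T, (X.y j : ℝ) ^ 2 = g := by
    have h := hM1 ζ hb hζ
    have := congrArg (fun z : ℤ => (z : ℝ)) h
    push_cast at this
    rw [hT, Finset.sum_filter, this, hgx]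
  -- `∑_{T} y j F j = 0`
  have hyF : ∑ j ∈ T, (X.y j : ℂ) * F j = 0 := by
    have e : ∀ j, (X.y j : ℂ) * F j = ∑ k, u' k * ((X.y j : ℂ) * X.s j k) := by
      intro j
      simp only [hF]
      rw [Finset.mul_sum]
      refine Finset.sum_congr rfl fun k _ => ?_
      ring
    rw [Finset.sum_congr rfl fun j _ => e j, Finset.sum_comm, ← huw]
    refine Finset.sum_congr rfl fun k _ => ?_
    by_cases hk : X.t k = 1
    · rw [← Finset.mul_sum, hT, Finset.sum_filter, ib_iii X ζ hζ hb k hk]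
      congr 1
      simp only [hw]
      rw [if_pos hk]
      split_ifs <;> push_cast <;> rfl
    · rw [hu0 k hk]
      simp
  -- the vector `v'`
  set v : I → ℝ := fun j => (if j = b then 1 else 0) - al * X.y j with hv
  have hvv : ∑ j ∈ T, v j ^ 2 = 1 - yb ^ 2 / g := by
    have e : ∀ j, v j ^ 2 = (if j = b then 1 - 2 * al * X.y j else 0) +
        al ^ 2 * (X.y j : ℝ) ^ 2 := by
      intro j
      simp only [hv]
      split_ifs <;> ring
    rw [Finset.sum_congr rfl fun j _ => e j, Finset.sum_add_distrib, ← Finset.mul_sum, hyy,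
      Finset.sum_ite_eq' T b, if_pos hbT, hal, ← hyb]
    field_simp
    ring
  have hvF : ∑ j ∈ T, (v j : ℂ) * F j = (R : ℂ) := by
    have e : ∀ j, (v j : ℂ) * F j = (if j = b then F j else 0) - (al : ℂ) * ((X.y j : ℂ) * F j) := by
      intro j
      simp only [hv]
      split_ifs <;> push_cast <;> ring
    rw [Finset.sum_congr rfl fun j _ => e j, Finset.sum_sub_distrib, ← Finset.mul_sum, hyF,
      mul_zero, sub_zero, Finset.sum_ite_eq' T b, if_pos hbT]
    exact hsub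
  have hR0 : 0 ≤ R := by
    rw [← hRu]
    exact Finset.sum_nonneg fun k _ => sq_nonneg _
  have hV0 : 0 ≤ 1 - yb ^ 2 / g := by
    rw [← hvv]
    exact Finset.sum_nonneg fun k _ => sq_nonneg _
  have hCS : R ^ 2 ≤ (1 - yb ^ 2 / g) * (2 * (p : ℝ) * R) := by
    have h1 : R ≤ ∑ j ∈ T, |v j| * ‖F j‖ := by
      have h : ‖(R : ℂ)‖ ≤ ∑ j ∈ T, ‖(v j : ℂ) * F j‖ := by
        rw [← hvF]
        exact norm_sum_le _ _
      rw [Complex.norm_real, Real.norm_of_nonneg hR0] at h
      refine h.trans (le_of_eq (Finset.sum_congr rfl fun j _ => ?_))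
      rw [norm_mul, Complex.norm_real, Real.norm_eq_abs]
    have h2 : (∑ j ∈ T, |v j| * ‖F j‖) ^ 2 ≤ (∑ j ∈ T, |v j| ^ 2) * ∑ j ∈ T, ‖F j‖ ^ 2 :=
      Finset.sum_mul_sq_le_sq_mul_sq T _ _
    have h4 : ∑ j ∈ T, |v j| ^ 2 = 1 - yb ^ 2 / g := by
      rw [← hvv]
      exact Finset.sum_congr rfl fun j _ => sq_abs _
    rw [h4] at h2
    calc R ^ 2 ≤ (∑ j ∈ T, |v j| * ‖F j‖) ^ 2 := pow_le_pow_left₀ hR0 h1 2
      _ ≤ (1 - yb ^ 2 / g) * ∑ j ∈ T, ‖F j‖ ^ 2 := h2
      _ ≤ (1 - yb ^ 2 / g) * (2 * (p : ℝ) * R) := mul_le_mul_of_nonneg_left h3' hV0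
  have hfin : R ≤ 2 * (p : ℝ) * (1 - yb ^ 2 / g) := by
    rcases hR0.eq_or_lt with h | h
    · rw [← h]
      positivity
    · have : R * R ≤ (2 * (p : ℝ) * (1 - yb ^ 2 / g)) * R := by
        nlinarith [hCS]
      exact le_of_mul_le_mul_right this h
  have hA' : A = R + ((p : ℝ) + 1) * yb ^ 2 / g := by
    rw [hR]
    ring
  rw [hA']
  have e : 2 * (p : ℝ) - ((p : ℝ) - 1) * yb ^ 2 / g =
      2 * (p : ℝ) * (1 - yb ^ 2 / g) + ((p : ℝ) + 1) * yb ^ 2 / g := by
    ring
  rw [e]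
  linarith

theorem hIB : StIB := by
  intro hE3 hE2 hE4 hORB I _ _ p _ X b hxn hb
  exact ib_main hE3 hE2 hE4 hORB X b hxn hb

end Pool.Agent.Helper4.PQ1.IB
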