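import Pool.Agent.Helper4.PQ1.Defs

/-!
# Project OC (MP_2b6189_al), module LKN: consequences of the link
-/

set_option autoImplicit false

namespace Pool.Agent.Helper4.PQ1.LKN

open Pool.Agent.Helper4.PQ0 Pool.Agent.Helper4.PQ1
open Pool.Agent.Helper94.YF hiding StORB
open Pool.Agent.Helper89.OS hiding PD Cx Blk B0 Orb StXA StXB StXC StXE StCGR StISO StBLK StAMG StHEC StSTL StMZZ StDRE StTSU
open Pool.Agent.Helper89.OC hiding Ks gX OB Lk StORB StTS2 StLKD StTAN StE2 StE4 StE3 StIB StRB StMXX StGPZ StGPP StKSS StLKN StGA2 GA Gam Kp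

open Matrix ComplexConjugate Pool.Agent.Helper94.YG

theorem hLKN : StLKN := by
  intro I _ _ Z p b X hL
  obtain ⟨hU, hthL, htadd, ht0, -, hto, -, hLoN, hLosym, -, -⟩ :=
    Pool.Agent.Helper36.YF.hFUS Pool.Agent.Helper88.YF.hDUA I Z.toCentreRep
  obtain ⟨-, -, -, -, -, hrst⟩ := Pool.Agent.Helper88.YF.hDUA I Z.toCentreRep
  obtain ⟨j, tu, hj, htu, htum⟩ := Pool.Agent.Helper24.OS.hJTU Z.L p 1 b X.prime hL.idp
  have hSm := (Pool.Agent.Helper19.OS.hGRP Z.L (p ^ 1) b j tu hL.idp.idem hj htu htum).2.1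
  obtain ⟨hsym, hint⟩ := Pool.Agent.Helper33.OS.hENT Pool.Agent.Helper36.YF.hFUS
    Pool.Agent.Helper88.YF.hDUA I Z.toCentreRep (1 - b)
  have hs : ∀ i k, X.s i k = (p : ℂ) * Z.rho (s2 b) i k := fun i k => by rw [hL.s]
  have hent : ∀ i k, Z.rho (s2 b) i k = Z.tw (-b) i * Z.rho (Lo b) i k * Z.tw (-b) k := by
    intro i k
    unfold s2
    rw [map_mul, map_mul, hU, Matrix.mul_diagonal, Matrix.diagonal_mul]
  have hinv : ∀ l, Z.tw b l * Z.tw (-b) l = 1 := by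
    intro l
    rw [← htadd, add_neg_cancel, ht0]
  have hty : ∀ l, X.t l * (X.y l : ℂ) = (p : ℂ) * Z.rho (Lo b) l Z.o := by
    intro l
    rw [← X.s_o, hs, hL.t, hL.o, hent, hto (-b)]
    linear_combination ((p : ℂ) * Z.rho (Lo b) l Z.o) * hinv l
  refine ⟨fun i k => ?_, fun i k => ?_, ?_⟩
  · have h1 : X.s i k * (X.t i * X.t k) = (p : ℂ) * Z.rho (Lo b) i k := by
      rw [hs, hL.t, hent]
      linear_combination ((p : ℂ) * Z.rho (Lo b) i k * (Z.tw b k * Z.tw (-b) k)) * hinv i +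
        ((p : ℂ) * Z.rho (Lo b) i k) * hinv k
    rw [h1, hLoN b i k, Finset.mul_sum]
    refine Finset.sum_congr rfl fun l _ => ?_
    rw [hty l, hL.N, hL.st]
    ring
  · rw [hs, hs, hL.st, hrst]
  · refine ⟨fun i k => (X.m : ℂ) * Z.rho (s2 (1 - b)) i k, fun i k => ?_, fun i => ?_, fun k => ?_,
      fun i k => ?_⟩
    · exact (hint X.m X.z hL.z i k).1
    · show (X.m : ℂ) * Z.rho (s2 (1 - b)) i X.o = X.z i
      rw [hL.o]
      exact (hL.z i).symm
    · show (X.m : ℂ) * Z.rho (s2 (1 - b)) X.o k = X.z k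
      rw [hL.o, hsym]
      exact (hL.z k).symm
    · unfold Sf
      rw [← hSm, map_mul, Matrix.mul_apply, Finset.mul_sum]
      refine Finset.sum_congr rfl fun l _ => ?_
      rw [hs, hL.n_eq]
      push_cast
      ring

end Pool.Agent.Helper4.PQ1.LKN
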