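import Pool.Agent.Helper4.PQ1.Defs

set_option autoImplicit false

namespace Pool.Agent.Helper4.PQ1.MXX

open Pool.Agent.Helper4.PQ0 Pool.Agent.Helper4.PQ1
open Pool.Agent.Helper94.YF hiding StORB
open Pool.Agent.Helper89.OS hiding PD Cx Blk B0 Orb StXA StXB StXC StXE StCGR StISO StBLK StAMG StHEC StSTL StMZZ StDRE StTSU
open Pool.Agent.Helper89.OC hiding Ks gX OB Lk StORB StTS2 StLKD StTAN StE2 StE4 StE3 StIB StRB StMXX StGPZ StGPP StKSS StLKN StGA2 GA Gam Kp

open Matrix ComplexConjugate Pool.Agent.Helper94.YG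

lemma zt_prim (p : ℕ) [NeZero p] : IsPrimitiveRoot (zt p) p :=
  Complex.isPrimitiveRoot_exp p (NeZero.ne p)

lemma unit_val_pos {p : ℕ} [NeZero p] (hp : p.Prime) (x : (ZMod (p ^ 1))ˣ) :
    0 < ((x : ZMod (p ^ 1))).val := by
  have : Fact (p ^ 1).Prime := ⟨by simpa using hp⟩
  have h : (x : ZMod (p ^ 1)) ≠ 0 := x.ne_zero
  have h2 : ((x : ZMod (p ^ 1))).val ≠ 0 := by
    intro h3
    exact h ((ZMod.val_eq_zero _).1 h3)
  omega

lemma lin_ind {p : ℕ} [NeZero p] (hp : p.Prime) (f : (ZMod (p ^ 1))ˣ → ℤ)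
    (h : ∑ x, (f x : ℂ) * zt p ^ ((x : (ZMod (p ^ 1))ˣ) : ZMod (p ^ 1)).val = 0) :
    ∀ x, f x = 0 := by
  classical
  intro x0
  have hprim := zt_prim p
  have hz : zt p ≠ 0 := hprim.ne_zero (NeZero.ne p)
  let P : Polynomial ℚ := ∑ x : (ZMod (p ^ 1))ˣ,
    Polynomial.C (f x : ℚ) * Polynomial.X ^ (((x : ZMod (p ^ 1))).val - 1)
  have hP : Polynomial.aeval (zt p) P = 0 := by
    have h1 : zt p * Polynomial.aeval (zt p) P =
        ∑ x, (f x : ℂ) * zt p ^ ((x : (ZMod (p ^ 1))ˣ) : ZMod (p ^ 1)).val := by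
      simp only [P, map_sum, map_mul, map_pow, Polynomial.aeval_C, Polynomial.aeval_X,
        Finset.mul_sum]
      refine Finset.sum_congr rfl fun x _ => ?_
      have hx := unit_val_pos hp x
      obtain ⟨k, hk⟩ : ∃ k, ((x : ZMod (p ^ 1))).val = k + 1 := ⟨_, (Nat.succ_pred_eq_of_pos hx).symm⟩
      rw [hk, Nat.add_sub_cancel, pow_succ]
      simp only [map_intCast]
      ring
    rw [h] at h1
    exact (mul_eq_zero.1 h1).resolve_left hz
  have hmin : minpoly ℚ (zt p) ∣ P := minpoly.dvd ℚ _ hP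
  have hdeg : (minpoly ℚ (zt p)).natDegree = p - 1 := by
    rw [← Polynomial.cyclotomic_eq_minpoly_rat hprim (NeZero.pos p), Polynomial.natDegree_cyclotomic,
      Nat.totient_prime hp]
  have hPz : P = 0 := by
    by_contra hne
    have h1 := Polynomial.natDegree_le_of_dvd hmin hne
    rw [hdeg] at h1
    have h2 : P.natDegree ≤ p - 2 := by
      refine Polynomial.natDegree_sum_le_of_forall_le _ _ fun x _ => ?_
      refine (Polynomial.natDegree_C_mul_X_pow_le _ _).trans ?_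
      have hx : ((x : ZMod (p ^ 1))).val < p :=
        lt_of_lt_of_eq (ZMod.val_lt (x : ZMod (p ^ 1))) (pow_one p)
      have h2 : ((x : ZMod (p ^ 1))).val ≤ p - 1 := by
        have := hp.two_le
        omega
      calc ((x : ZMod (p ^ 1))).val - 1 ≤ (p - 1) - 1 := Nat.sub_le_sub_right h2 1
        _ = p - 2 := by omega
    have := hp.two_le
    omega
  have hc : P.coeff (((x0 : ZMod (p ^ 1))).val - 1) = (f x0 : ℚ) := by
    simp only [P, Polynomial.finsetSum_coeff, Polynomial.coeff_C_mul, Polynomial.coeff_X_pow]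
    rw [Finset.sum_eq_single x0]
    · simp
    · intro y _ hy
      have h1 := unit_val_pos hp x0
      have h2 := unit_val_pos hp y
      have h3 : ((x0 : ZMod (p ^ 1))).val ≠ ((y : ZMod (p ^ 1))).val := by
        intro h4
        exact hy (Units.ext (ZMod.val_injective _ h4)).symm
      rw [if_neg (by omega), mul_zero]
    · intro h; exact absurd (Finset.mem_univ _) h
  rw [hPz, Polynomial.coeff_zero] at hc
  exact_mod_cast hc.symm

lemma sum_units {p : ℕ} [NeZero p] (hp : p.Prime) (F : ZMod (p ^ 1) → ℂ) (h0 : F 0 = 0) :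
    ∑ x, F x = ∑ u : (ZMod (p ^ 1))ˣ, F u := by
  classical
  have : Fact (p ^ 1).Prime := ⟨by simpa using hp⟩
  rw [← Finset.sum_filter_add_sum_filter_not Finset.univ (fun x : ZMod (p ^ 1) => x ≠ 0)]
  have h1 : ∑ x ∈ Finset.univ.filter (fun x : ZMod (p ^ 1) => ¬ x ≠ 0), F x = 0 := by
    refine Finset.sum_eq_zero fun x hx => ?_
    have : x = 0 := by simpa using hx
    rw [this, h0]
  rw [h1, add_zero]
  symm
  refine Finset.sum_bij (fun (u : (ZMod (p ^ 1))ˣ) _ => (u : ZMod (p ^ 1))) ?_ ?_ ?_ ?_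
  · intro u _
    simp
  · intro u _ v _ h
    exact Units.ext h
  · intro x hx
    have hx' : x ≠ 0 := by simpa using hx
    exact ⟨Units.mk0 x hx', Finset.mem_univ _, rfl⟩
  · intro u _
    rfl

lemma sum_zt {p : ℕ} [NeZero p] (hp : p.Prime) : ∑ x : ZMod (p ^ 1), zt p ^ x.val = 0 := by
  have hprim := zt_prim p
  have h1 : ∑ x : ZMod (p ^ 1), zt p ^ x.val = ∑ i ∈ Finset.range (p ^ 1), zt p ^ i := by
    refine Finset.sum_bij (fun (x : ZMod (p ^ 1)) _ => x.val) ?_ ?_ ?_ ?_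
    · intro x _
      exact Finset.mem_range.2 (ZMod.val_lt x)
    · intro x _ y _ h
      exact ZMod.val_injective _ h
    · intro i hi
      refine ⟨(i : ZMod (p ^ 1)), Finset.mem_univ _, ?_⟩
      exact ZMod.val_natCast_of_lt (Finset.mem_range.1 hi)
    · intro x _
      rfl
  rw [h1, pow_one]
  exact hprim.geom_sum_eq_zero hp.one_lt

lemma zt_pow_mul {p : ℕ} [NeZero p] (a b : ZMod (p ^ 1)) :
    (zt p ^ a.val) ^ b.val = zt p ^ (a * b).val := by
  have hprim := zt_prim p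
  rw [← pow_mul, ZMod.val_mul]
  have h1 : zt p ^ (p ^ 1) = 1 := by rw [pow_one]; exact hprim.pow_eq_one
  conv_lhs => rw [← Nat.mod_add_div (a.val * b.val) (p ^ 1)]
  rw [pow_add, pow_mul, h1, one_pow, mul_one]

/-- **OC MODULE MXX.** -/
theorem hMXX : StMXX := by
  classical
  intro I _ _ p _ X hGA nform k l hk hl
  have hp := X.prime
  have hprim := zt_prim p
  -- exponents
  have hex : ∀ v, ∃ x : ZMod (p ^ 1), X.t v = zt p ^ x.val := by
    intro v
    have h1 : X.t v ^ p = 1 := by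
      have := X.t_pow v
      rwa [pow_one] at this
    obtain ⟨i, hi, hi2⟩ := hprim.eq_pow_of_pow_eq_one h1
    refine ⟨(i : ZMod (p ^ 1)), ?_⟩
    rw [ZMod.val_natCast_of_lt (by rw [pow_one]; exact hi)]
    exact hi2.symm
  choose xv hxv using hex
  let M : ZMod (p ^ 1) → ℤ := fun x => ∑ v, if xv v = x then (X.N k (X.st l) v : ℤ) * X.y v else 0
  have hs1 : X.s k l = ∑ x : ZMod (p ^ 1), (M x : ℂ) * zt p ^ x.val := by
    have h1 := nform k l
    rw [hk, hl, mul_one, mul_one] at h1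
    rw [h1]
    simp only [M]
    push_cast
    simp only [Finset.sum_mul]
    rw [Finset.sum_comm]
    refine Finset.sum_congr rfl fun v _ => ?_
    rw [Finset.sum_eq_single (xv v)]
    · rw [if_pos rfl, hxv v]
      ring
    · intro x _ hx
      rw [if_neg (fun h => hx h.symm)]
      simp
    · intro h; exact absurd (Finset.mem_univ _) h
  let m : (ZMod (p ^ 1))ˣ → ℤ := fun u => M u - M 0
  have hs2 : X.s k l = ∑ u : (ZMod (p ^ 1))ˣ, (m u : ℂ) * zt p ^ ((u : ZMod (p ^ 1))).val := by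
    have h1 := sum_units hp (fun x => ((M x : ℂ) - (M 0 : ℂ)) * zt p ^ x.val) (by simp)
    have h2 : ∑ x : ZMod (p ^ 1), ((M x : ℂ) - (M 0 : ℂ)) * zt p ^ x.val =
        ∑ x : ZMod (p ^ 1), (M x : ℂ) * zt p ^ x.val := by
      have : ∀ x : ZMod (p ^ 1), ((M x : ℂ) - (M 0 : ℂ)) * zt p ^ x.val =
          (M x : ℂ) * zt p ^ x.val - (M 0 : ℂ) * zt p ^ x.val := fun x => by ring
      simp only [this]
      rw [Finset.sum_sub_distrib, ← Finset.mul_sum, sum_zt hp, mul_zero, sub_zero]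
    rw [hs1, ← h2, h1]
    refine Finset.sum_congr rfl fun u _ => ?_
    simp only [m]
    push_cast
    ring
  have hF : ∀ c, X.s k (X.pi c l) = Fm p m c := by
    intro c
    obtain ⟨σ, hσ⟩ := hGA.exs c
    rw [← hGA.gal2 σ c hσ k l, hs2, map_sum]
    unfold Fm
    refine Finset.sum_congr rfl fun u _ => ?_
    rw [map_mul, map_pow, map_intCast, hσ _ hprim.pow_eq_one, zt_pow_mul]
    rfl
  refine ⟨m, hF, ?_⟩
  intro c hc
  have h1 : X.s k (X.pi c l) = X.s k l := by
    rcases hc with hc | hc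
    · rw [← X.pi_s, hc]
    · rw [hc]
  rw [hF c, hs2] at h1
  unfold Fm at h1
  -- reindex
  have h2 : ∑ x : (ZMod (p ^ 1))ˣ, (m x : ℂ) * zt p ^ ((c * x : (ZMod (p ^ 1))ˣ) : ZMod (p ^ 1)).val =
      ∑ x : (ZMod (p ^ 1))ˣ, (m (c⁻¹ * x) : ℂ) * zt p ^ ((x : (ZMod (p ^ 1))ˣ) : ZMod (p ^ 1)).val := by
    refine Fintype.sum_equiv (Equiv.mulLeft c) _ _ fun x => ?_
    rw [Equiv.coe_mulLeft, inv_mul_cancel_left]
  rw [h2] at h1
  have h3 := lin_ind hp (fun x => m (c⁻¹ * x) - m x) (by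
    push_cast
    simp only [sub_mul]
    rw [Finset.sum_sub_distrib, h1, sub_self])
  intro x
  have h4 := h3 (c * x)
  simp only [inv_mul_cancel_left] at h4
  omega

end Pool.Agent.Helper4.PQ1.MXX
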