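import Pool.Agent.Helper4.PQ1.M_RB

/-! # The rank bound with its defect, any parity -/

set_option autoImplicit false

namespace Pool.Agent.Helper4.PQ1.RBE

open Matrix ComplexConjugate Pool.Agent.Helper94.YG Pool.Agent.Helper4.PQ0 Pool.Agent.Helper4.PQ1 Pool.Agent.Helper4.PQ1.RB

/-- the rank bound with its defect -/
def StRBE : Prop := StIB → StTS2 → Pool.Agent.Helper4.PQ0.StORB → StE3 → StE2 → StE4 → ∀ (I : Type) [Fintype I]
  [DecidableEq I] (p : ℕ) [NeZero p] (X : PD I p 1) (Q : ℂ → Prop), Blk X Q →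
  ((p : ℝ) - 1) * (p * (∑ k ∈ Ks X, (1 - 1 / ((Orb X k).card : ℝ))) + p + 1) +
    ((p : ℝ) - 1) ^ 2 ≤ 2 * p * (open Classical in
      (Finset.univ.filter fun b => X.y b ≠ 0 ∧ X.t b ≠ 1).card : ℝ)

theorem hRBE : StRBE := by
  classical
  intro hIB hTS2 hORB hE3 hE2 hE4 I _ _ p _ X Q hB
  have hM := Pool.Agent.Helper4.PQ0.MZZ.hMZZ I p X hB.x_nd
  have hg2 : (1 : ℝ) ≤ (gX X : ℝ) := by
    have : (1 : ℤ) ≤ gX X := hM.2.2.2.2.1
    exact_mod_cast this
  have hg0 : (gX X : ℝ) ≠ 0 := by linarith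
  have hyo : X.y X.o ≠ 0 := by
    intro h
    apply hB.x_nd
    rw [h]
    exact dvd_zero _
  have hoK : X.o ∉ Ks X := fun h => ((mem_Ks X _).1 h).2.2 rfl
  have hL : ∑ k ∈ insert X.o (Ks X), A2 X k = ((p : ℝ) - 1) *
      (p * ∑ k ∈ Ks X, (1 - 1 / ((Orb X k).card : ℝ)) + p + 1) := by
    rw [Finset.sum_insert hoK, A2_o X hB.x_nd,
      Finset.sum_congr rfl fun k hk => A2_Ks hTS2 hORB X Q hB hg0 k hk,
      ← Finset.mul_sum, Finset.sum_add_distrib, ← Finset.mul_sum, ← Finset.sum_div,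
      sum_Ks_y X hB.x_nd, mul_div_cancel_left₀ _ hg0]
    ring
  have hR : ∑ k ∈ insert X.o (Ks X), A2 X k ≤
      ∑ b, ((if X.y b ≠ 0 ∧ X.t b ≠ 1 then 2 * (p : ℝ) else 0) -
        ((p : ℝ) - 1) / (gX X : ℝ) * (if X.t b = 1 then 0 else (X.y b : ℝ) ^ 2)) := by
    have h1 : ∑ k ∈ insert X.o (Ks X), A2 X k =
        ∑ b, if X.t b = 1 then 0 else ∑ k ∈ insert X.o (Ks X), ‖X.s b k‖ ^ 2 := by
      simp only [A2]
      rw [Finset.sum_comm]
      refine Finset.sum_congr rfl fun b _ => ?_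
      split_ifs with h
      · exact Finset.sum_const_zero
      · exact Finset.sum_congr rfl fun k _ => by rw [X.s_symm]
    rw [h1]
    refine Finset.sum_le_sum fun b _ => ?_
    by_cases htb : X.t b = 1
    · rw [if_pos htb, if_pos htb, mul_zero, if_neg (fun h => h.2 htb), sub_zero]
    rw [if_neg htb, if_neg htb]
    by_cases hyb : X.y b = 0
    · rw [if_neg (fun h => h.1 hyb), hyb]
      have h2 : ∀ k ∈ insert X.o (Ks X), ‖X.s b k‖ ^ 2 = 0 := by
        intro k hk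
        have hyk : X.y k ≠ 0 := by
          rcases Finset.mem_insert.1 hk with rfl | hk
          · exact hyo
          · exact ((mem_Ks X _).1 hk).1
        rw [X.s_symm, hB.sup k b hyk hyb]
        simp
      rw [Finset.sum_congr rfl h2]
      simp
    · rw [if_pos ⟨hyb, htb⟩]
      have h3 : ∑ k ∈ insert X.o (Ks X), ‖X.s b k‖ ^ 2 ≤
          ∑ k, if X.t k = 1 then ‖X.s b k‖ ^ 2 else 0 := by
        have h4 : ∑ k ∈ insert X.o (Ks X), ‖X.s b k‖ ^ 2 =
            ∑ k ∈ insert X.o (Ks X), if X.t k = 1 then ‖X.s b k‖ ^ 2 else 0 := by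
          refine Finset.sum_congr rfl fun k hk => ?_
          have : X.t k = 1 := by
            rcases Finset.mem_insert.1 hk with rfl | hk
            · exact X.t_o
            · exact ((mem_Ks X _).1 hk).2.1
          rw [if_pos this]
        rw [h4]
        refine Finset.sum_le_sum_of_subset_of_nonneg (Finset.subset_univ _) fun j _ _ => ?_
        split_ifs
        · positivity
        · exact le_refl 0
      have h5 := hIB hE3 hE2 hE4 hORB I p X b hB.x_nd htb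
      refine (h3.trans h5).trans (le_of_eq ?_)
      ring
  have h6 : ((p : ℝ) - 1) / (gX X : ℝ) * (((p : ℝ) - 1) * (gX X : ℝ)) = ((p : ℝ) - 1) ^ 2 := by
    field_simp
  have h7 : ∑ b, ((if X.y b ≠ 0 ∧ X.t b ≠ 1 then 2 * (p : ℝ) else 0) -
      ((p : ℝ) - 1) / (gX X : ℝ) * (if X.t b = 1 then 0 else (X.y b : ℝ) ^ 2)) =
      2 * (p : ℝ) * ((Finset.univ.filter fun b => X.y b ≠ 0 ∧ X.t b ≠ 1).card : ℝ) -
        ((p : ℝ) - 1) ^ 2 := by
    rw [Finset.sum_sub_distrib, ← Finset.mul_sum, sum_y_ne X hB.x_nd, ← Finset.sum_filter,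
      Finset.sum_const, nsmul_eq_mul, h6]
    ring
  rw [hL, h7] at hR
  linarith

end Pool.Agent.Helper4.PQ1.RBE
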